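import Mathlib

/-!
Finite combinatorics: boundaries of sets under finitely many permutations, partitions into
expanding pieces.
-/

set_option autoImplicit false
set_option linter.unusedSectionVars false

namespace Pool.Agent.H840Z.NS

open Finset

variable {L : Type} [Group L] {A : Type} [Fintype A] [DecidableEq A]

/-- number of points of `V` that leave `V` -/
def out (σ : Equiv.Perm A) (V : Finset A) : ℕ := #(V.filter fun s => σ s ∉ V)

/-- boundary of a set -/
def bd (φ : L → Equiv.Perm A) (S : Finset L) (V : Finset A) : ℕ := ∑ σ ∈ S, out (φ σ) V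

/-- multiplicativity defect on a set -/
def dfc (φ : L → Equiv.Perm A) (W : Finset L) (V : Finset A) : ℕ :=
  ∑ g ∈ W, ∑ h ∈ W, #(V.filter fun s => φ g (φ h s) ≠ φ (g * h) s)

theorem card_filter_perm (σ : Equiv.Perm A) (p : A → Prop) [DecidablePred p] :
    #(univ.filter fun s => p (σ s)) = #(univ.filter p) := by
  refine card_bij (fun s _ => σ s) ?_ ?_ ?_
  · intro s hs
    simpa using hs
  · intro s _ t _ h
    exact σ.injective h
  · intro t ht
    exact ⟨σ.symm t, by simpa using ht, by simp⟩

theorem card_enter (σ : Equiv.Perm A) (V : Finset A) :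
    #(univ.filter fun s => s ∉ V ∧ σ s ∈ V) = out σ V := by
  have h1 : #(univ.filter fun s => σ s ∈ V) = #V := by
    rw [card_filter_perm σ (fun s => s ∈ V)]; simp
  have h2 := card_filter_add_card_filter_not (s := univ.filter fun s => σ s ∈ V) (fun s => s ∈ V)
  have h3 := card_filter_add_card_filter_not (s := V) (fun s => σ s ∈ V)
  have h4 : (univ.filter fun s => σ s ∈ V).filter (fun s => s ∈ V) = V.filter fun s => σ s ∈ V := by
    ext s; simp [and_comm]
  have h5 : (univ.filter fun s => σ s ∈ V).filter (fun s => ¬ s ∈ V) =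
      univ.filter fun s => s ∉ V ∧ σ s ∈ V := by
    ext s; simp [and_comm]
  rw [h4, h5, h1] at h2
  unfold out
  omega

theorem dfc_split (φ : L → Equiv.Perm A) (W : Finset L) (R U : Finset A) :
    dfc φ W R = dfc φ W (R \ U) + dfc φ W (U ∩ R) := by
  unfold dfc
  rw [← sum_add_distrib]
  refine sum_congr rfl fun g _ => ?_
  rw [← sum_add_distrib]
  refine sum_congr rfl fun h _ => ?_
  rw [← card_union_of_disjoint, ← filter_union]
  · congr 2
    ext s; simp only [mem_union, mem_sdiff, mem_inter]; tauto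
  · refine disjoint_filter_filter ?_
    rw [disjoint_left]
    intro s h1 h2
    exact (mem_sdiff.mp h1).2 (mem_inter.mp h2).1

theorem out_sdiff (σ : Equiv.Perm A) (R U : Finset A) : out σ (R \ U) ≤ out σ R + out σ U := by
  rw [← card_enter σ U]
  unfold out
  refine le_trans (card_le_card ?_) (card_union_le _ _)
  intro s hs
  simp only [mem_filter, mem_sdiff, mem_union, mem_univ, true_and] at hs ⊢
  tauto

theorem bd_sdiff (φ : L → Equiv.Perm A) (S : Finset L) (R U : Finset A) :
    bd φ S (R \ U) ≤ bd φ S R + bd φ S U := by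
  unfold bd
  rw [← sum_add_distrib]
  exact sum_le_sum fun σ _ => out_sdiff _ _ _

/-- inequality summed over the fibres of a map -/
theorem sum_le_of_fibres {κ : Type} [DecidableEq κ] (B : Finset A) (v : A → κ) (x y : A → ℝ)
    (h : ∀ s ∈ B, ∑ t ∈ B.filter (fun t => v t = v s), x t ≤
      ∑ t ∈ B.filter (fun t => v t = v s), y t) : ∑ t ∈ B, x t ≤ ∑ t ∈ B, y t := by
  rw [← sum_fiberwise_of_maps_to (s := B) (t := B.image v) (g := v)
      (fun t ht => mem_image_of_mem v ht) x,
    ← sum_fiberwise_of_maps_to (s := B) (t := B.image v) (g := v)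
      (fun t ht => mem_image_of_mem v ht) y]
  refine sum_le_sum fun k hk => ?_
  obtain ⟨s, hs, rfl⟩ := mem_image.mp hk
  exact h s hs

/-- `c s` is the class of `s` in a partition of `R` -/
def Part (R : Finset A) (c : A → Finset A) : Prop :=
  ∀ s ∈ R, c s ⊆ R ∧ s ∈ c s ∧ ∀ t ∈ c s, c t = c s

/-- every class is expanding -/
def Expa (φ : L → Equiv.Perm A) (S : Finset L) (γ : ℝ) (R : Finset A) (c : A → Finset A) : Prop :=
  ∀ s ∈ R, ∀ V ⊆ c s, 2 * #V ≤ #(c s) → γ * #V ≤ bd φ S V

/-- number of edges inside `R` between different classes -/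
def cost (φ : L → Equiv.Perm A) (S : Finset L) (R : Finset A) (c : A → Finset A) : ℕ :=
  ∑ σ ∈ S, #(R.filter fun s => φ σ s ∈ R ∧ φ σ s ∉ c s)

theorem part_single (R : Finset A) : Part R (fun s => {s}) := by
  intro s hs
  refine ⟨by simpa using hs, by simp, fun t ht => ?_⟩
  rw [mem_singleton.mp ht]

theorem expa_single (φ : L → Equiv.Perm A) (S : Finset L) (γ : ℝ) (R : Finset A) :
    Expa φ S γ R (fun s => {s}) := by
  intro s _ V _ h
  have : #V = 0 := by simp only [card_singleton] at h; omega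
  rw [this]; simp

theorem cost_le (φ : L → Equiv.Perm A) (S : Finset L) (R : Finset A) (c : A → Finset A) :
    cost φ S R c ≤ #S * #R := by
  unfold cost
  calc _ ≤ ∑ _σ ∈ S, #R := sum_le_sum fun σ _ => card_filter_le _ _
    _ = _ := by simp

theorem step (φ : L → Equiv.Perm A) (S : Finset L) (γ : ℝ) (R U : Finset A) (c : A → Finset A)
    (hp : Part (R \ U) c) (he : Expa φ S γ (R \ U) c)
    (hU : ∀ V ⊆ U ∩ R, 2 * #V ≤ #(U ∩ R) → γ * #V ≤ bd φ S V) :
    ∃ c' : A → Finset A, Part R c' ∧ Expa φ S γ R c' ∧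
      cost φ S R c' ≤ cost φ S (R \ U) c + 2 * bd φ S U := by
  refine ⟨fun s => if s ∈ U then U ∩ R else c s, ?_, ?_, ?_⟩
  · intro s hs
    by_cases h : s ∈ U
    · simp only [h, if_true]
      refine ⟨inter_subset_right, mem_inter.mpr ⟨h, hs⟩, fun t ht => ?_⟩
      rw [if_pos (mem_inter.mp ht).1]
    · simp only [h, if_false]
      obtain ⟨h1, h2, h3⟩ := hp s (mem_sdiff.mpr ⟨hs, h⟩)
      refine ⟨h1.trans sdiff_subset, h2, fun t ht => ?_⟩
      rw [if_neg (mem_sdiff.mp (h1 ht)).2, h3 t ht]
  · intro s hs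
    by_cases h : s ∈ U
    · simp only [h, if_true]
      exact hU
    · simp only [h, if_false]
      exact he s (mem_sdiff.mpr ⟨hs, h⟩)
  · unfold cost bd
    rw [mul_sum, ← sum_add_distrib]
    refine sum_le_sum fun σ _ => ?_
    rw [two_mul, ← add_assoc]
    nth_rewrite 2 [← card_enter (φ σ) U]
    unfold out
    refine le_trans (card_le_card ?_) ((card_union_le _ _).trans
      (Nat.add_le_add_right (card_union_le _ _) _))
    intro s hs
    simp only [mem_filter, mem_sdiff, mem_union, mem_univ, true_and] at hs ⊢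
    by_cases h : s ∈ U
    · simp only [h, if_true, mem_inter] at hs
      tauto
    · simp only [h, if_false] at hs
      tauto

/-- An almost invariant function is almost constant on the classes. -/
theorem const (φ : L → Equiv.Perm A) (S : Finset L) (γ : ℝ) (c : A → Finset A)
    (hp : Part univ c) (he : Expa φ S γ univ c) {B : Type} [DecidableEq B] (g : A → B) :
    ∃ m : A → B, (∀ s t, c s = c t → m s = m t) ∧
      γ * #(univ.filter fun s => g s ≠ m s) ≤
        ∑ σ ∈ S, (#(univ.filter fun s => φ σ s ∉ c s ∨ g (φ σ s) ≠ g s) : ℝ) := by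
  classical
  have hex : ∀ s : A, ∃ t ∈ c s, ∀ t' ∈ c s,
      #((c s).filter fun z => g z = g t') ≤ #((c s).filter fun z => g z = g t) := fun s =>
    exists_max_image (c s) (fun t => #((c s).filter fun z => g z = g t)) ⟨s, (hp s (mem_univ _)).2.1⟩
  let Q : Finset A → B → Prop := fun C b => ∀ t' ∈ C,
      #(C.filter fun z => g z = g t') ≤ #(C.filter fun z => g z = b)
  have hex' : ∀ s, ∃ b, Q (c s) b := fun s => by
    obtain ⟨t, -, ht⟩ := hex s
    exact ⟨g t, ht⟩
  let m : A → B := fun s => (hex' s).choose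
  have hm : ∀ s, Q (c s) (m s) := fun s => (hex' s).choose_spec
  have hmc : ∀ s t, c s = c t → m s = m t := by
    intro s t h
    simp only [m]
    congr 1
    rw [h]
  refine ⟨m, hmc, ?_⟩
  set Bad := univ.filter fun s => g s ≠ m s with hBad
  let y : A → ℝ := fun t => #(S.filter fun σ => φ σ t ∉ c t ∨ g (φ σ t) ≠ g t)
  have h1 : ∑ _t ∈ Bad, γ ≤ ∑ t ∈ Bad, y t := by
    refine sum_le_of_fibres Bad (fun t => (c t, g t)) _ _ fun s hs => ?_
    have hs' : g s ≠ m s := (mem_filter.mp hs).2
    have hV : Bad.filter (fun t => (c t, g t) = (c s, g s)) = (c s).filter fun z => g z = g s := by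
      ext t
      simp only [hBad, mem_filter, mem_univ, true_and, Prod.mk.injEq]
      constructor
      · rintro ⟨-, h1, h2⟩
        exact ⟨h1 ▸ (hp t (mem_univ _)).2.1, h2⟩
      · rintro ⟨h1, h2⟩
        have h3 := (hp s (mem_univ _)).2.2 t h1
        exact ⟨by rw [h2, hmc t s h3]; exact hs', h3, h2⟩
    rw [hV]
    set V := (c s).filter fun z => g z = g s with hVdef
    have h2 : 2 * #V ≤ #(c s) := by
      have h3 : #V ≤ #((c s).filter fun z => g z = m s) := hm s s (hp s (mem_univ _)).2.1
      have h4 : #(V ∪ (c s).filter fun z => g z = m s) ≤ #(c s) :=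
        card_le_card (union_subset (filter_subset _ _) (filter_subset _ _))
      rw [card_union_of_disjoint] at h4
      · omega
      · rw [disjoint_left]
        intro z h5 h6
        exact hs' ((mem_filter.mp h5).2.symm.trans (mem_filter.mp h6).2)
    have h3 := he s (mem_univ _) V (filter_subset _ _) h2
    rw [sum_const, nsmul_eq_mul, mul_comm]
    refine h3.trans ?_
    simp only [bd, out, y, card_filter]
    push_cast
    rw [sum_comm]
    refine sum_le_sum fun t ht => sum_le_sum fun σ _ => ?_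
    have ht1 := mem_filter.mp ht
    have h5 := (hp s (mem_univ _)).2.2 t ht1.1
    by_cases h6 : φ σ t ∈ V
    · simp only [h6, not_true, if_false]
      split_ifs <;> norm_num
    · have h7 : φ σ t ∉ c t ∨ g (φ σ t) ≠ g t := by
        by_contra h8
        push Not at h8
        exact h6 (mem_filter.mpr ⟨h5 ▸ h8.1, h8.2.trans ht1.2⟩)
      simp [h6, h7]
  rw [sum_const, nsmul_eq_mul, mul_comm] at h1
  refine h1.trans ?_
  calc ∑ t ∈ Bad, y t ≤ ∑ t, y t :=
        sum_le_sum_of_subset_of_nonneg (subset_univ _) fun t _ _ => Nat.cast_nonneg _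
    _ = _ := by
        simp only [y, card_filter]
        push_cast
        rw [sum_comm]

/-- Strict growth of the size of the class. -/
theorem grow (c : A → Finset A) (hp : Part univ c) (a l : Equiv.Perm A) (Bad : Finset A)
    (h1 : ∀ s ∉ Bad, ∀ t ∉ Bad, c s = c t → c (a s) = c (a t))
    (h2 : ∀ s ∉ Bad, c (l (a s)) = c (a s))
    (h3 : ∀ s ∉ Bad, ∀ t ∉ Bad, c s = c t → l (a s) ≠ a t) :
    #(univ.filter fun s => ¬ #(c s) < #(c (a s))) ≤ 3 * #Bad := by
  set Z := univ.filter fun s => 2 * #(c s \ Bad) ≤ #(c s) with hZ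
  have hcl : ∀ s t, t ∈ c s → c t = c s := fun s => (hp s (mem_univ _)).2.2
  have hme : ∀ s, s ∈ c s := fun s => (hp s (mem_univ _)).2.1
  have hZ2 : (#Z : ℝ) ≤ 2 * #Bad := by
    have h4 : ∑ _t ∈ Z, (1 : ℝ) ≤ ∑ t ∈ Z, (if t ∈ Bad then (2 : ℝ) else 0) := by
      refine sum_le_of_fibres Z c _ _ fun s hs => ?_
      have hs' : 2 * #(c s \ Bad) ≤ #(c s) := (mem_filter.mp hs).2
      have hV : Z.filter (fun t => c t = c s) = c s := by
        ext t
        simp only [hZ, mem_filter, mem_univ, true_and]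
        constructor
        · rintro ⟨-, h⟩
          exact h ▸ hme t
        · intro h
          rw [hcl s t h]
          exact ⟨hs', rfl⟩
      rw [hV, ← sum_filter]
      simp only [sum_const, nsmul_eq_mul, mul_one]
      have h5 := card_sdiff_add_card_inter (c s) Bad
      rw [← filter_mem_eq_inter] at h5
      have h6 : #(c s) ≤ #((c s).filter fun t => t ∈ Bad) * 2 := by omega
      exact_mod_cast h6
    rw [← sum_filter] at h4
    simp only [sum_const, nsmul_eq_mul, mul_one] at h4
    have h5 : #(Z.filter fun t => t ∈ Bad) ≤ #Bad :=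
      card_le_card fun t ht => (mem_filter.mp ht).2
    have h6 : (#(Z.filter fun t => t ∈ Bad) : ℝ) ≤ #Bad := by exact_mod_cast h5
    linarith
  have hZ3 : #Z ≤ 2 * #Bad := by exact_mod_cast hZ2
  have hsub : (univ.filter fun s => ¬ #(c s) < #(c (a s))) ⊆ Z ∪ Bad := by
    intro s hs
    by_contra hcon
    simp only [hZ, mem_union, mem_filter, mem_univ, true_and, not_or, not_le] at hcon hs
    apply hs
    have h4 : (c s \ Bad).map a.toEmbedding ∪ (c s \ Bad).map (a.trans l).toEmbedding ⊆
        c (a s) := by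
      intro z hz
      simp only [mem_union, mem_map, mem_sdiff, Equiv.coe_toEmbedding, Equiv.trans_apply] at hz
      rcases hz with ⟨t, ⟨ht, htb⟩, rfl⟩ | ⟨t, ⟨ht, htb⟩, rfl⟩
      · rw [h1 s hcon.2 t htb (hcl s t ht).symm]
        exact hme _
      · rw [h1 s hcon.2 t htb (hcl s t ht).symm, ← h2 t htb]
        exact hme _
    have h5 := card_le_card h4
    rw [card_union_of_disjoint, card_map, card_map] at h5
    · omega
    · rw [disjoint_left]
      intro z hz1 hz2
      simp only [mem_map, mem_sdiff, Equiv.coe_toEmbedding, Equiv.trans_apply] at hz1 hz2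
      obtain ⟨t, ⟨ht, htb⟩, rfl⟩ := hz1
      obtain ⟨t', ⟨ht', htb'⟩, e⟩ := hz2
      exact h3 t' htb' t htb ((hcl s t' ht').trans (hcl s t ht).symm) e
  have h7 := (card_le_card hsub).trans (card_union_le _ _)
  omega

/-- threshold lemma -/
theorem thr (φ : L → Equiv.Perm A) (S : Finset L) (u : A → ℝ) (hu : ∀ s, 0 ≤ u s) (N : ℕ)
    (hN : 0 < N) : ∃ θ : ℝ, 1 / 4 ≤ θ ∧ θ ≤ 3 / 4 ∧
      (bd φ S (univ.filter fun s => θ < u s) : ℝ) ≤
        4 * N ^ 2 * ∑ σ ∈ S, ∑ s, (u (φ σ s) - u s) ^ 2 + #S * (4 * ∑ s, u s) / N := by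
  have hN' : (0 : ℝ) < N := by exact_mod_cast hN
  let θ : ℕ → ℝ := fun r => 1 / 4 + r / (2 * N)
  let J : ℕ → Finset A := fun r => univ.filter fun s => θ r < u s ∧ u s ≤ θ (r + 1)
  have hθ : ∀ r r', r ≤ r' → θ r ≤ θ r' := by
    intro r r' h
    have : (r : ℝ) ≤ r' := by exact_mod_cast h
    simp only [θ]
    gcongr
  have hθ0 : ∀ r, 1 / 4 ≤ θ r := fun r => by
    have : (0 : ℝ) ≤ r / (2 * N) := by positivity
    simp only [θ]; linarith
  have hsum : ∑ r ∈ range N, (#(J r) : ℝ) ≤ 4 * ∑ s, u s := by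
    have h1 : ∑ r ∈ range N, #(J r) = #((range N).biUnion J) := by
      rw [card_biUnion]
      intro r _ r' _ hne
      simp only [Function.onFun]
      rw [disjoint_left]
      intro s h1 h2
      simp only [J, mem_filter, mem_univ, true_and] at h1 h2
      rcases lt_or_gt_of_ne hne with h | h
      · have := hθ (r + 1) r' h
        linarith
      · have := hθ (r' + 1) r h
        linarith
    have h2 : (#((range N).biUnion J) : ℝ) ≤ ∑ s ∈ (range N).biUnion J, 4 * u s := by
      rw [card_eq_sum_ones]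
      push_cast
      refine sum_le_sum fun s hs => ?_
      obtain ⟨r, -, hr⟩ := mem_biUnion.mp hs
      have h3 := (mem_filter.mp hr).2.1
      have := hθ0 r
      linarith
    have h3 : ∑ s ∈ (range N).biUnion J, 4 * u s ≤ ∑ s, 4 * u s :=
      sum_le_sum_of_subset_of_nonneg (subset_univ _) fun s _ _ => by have := hu s; positivity
    rw [← mul_sum univ] at h3
    have h4 : ∑ r ∈ range N, (#(J r) : ℝ) = (#((range N).biUnion J) : ℝ) := by
      exact_mod_cast h1
    linarith
  obtain ⟨r, hr, hJ⟩ : ∃ r ∈ range N, (#(J r) : ℝ) ≤ (4 * ∑ s, u s) / N := by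
    refine exists_le_of_sum_le ⟨0, mem_range.mpr hN⟩ ?_
    simp only [sum_const, card_range, nsmul_eq_mul]
    rw [mul_div_cancel₀ _ hN'.ne']
    exact hsum
  refine ⟨θ r, hθ0 r, ?_, ?_⟩
  · have h1 : (r : ℝ) ≤ N := by exact_mod_cast (mem_range.mp hr).le
    have h2 : (r : ℝ) / (2 * N) ≤ 1 / 2 := by
      rw [div_le_iff₀ (by positivity)]; linarith
    simp only [θ]; linarith
  · unfold bd
    push_cast
    rw [mul_sum, mul_div_assoc, ← nsmul_eq_mul, ← sum_const, ← sum_add_distrib]
    refine sum_le_sum fun σ _ => ?_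
    refine le_trans ?_ (add_le_add le_rfl hJ)
    simp only [out, J, filter_filter, card_filter]
    push_cast
    rw [mul_sum, ← sum_add_distrib]
    refine sum_le_sum fun s _ => ?_
    have h0 : (0 : ℝ) ≤ 4 * N ^ 2 * (u (φ σ s) - u s) ^ 2 := by positivity
    by_cases h1 : θ r < u s ∧ φ σ s ∉ univ.filter fun s => θ r < u s
    · rw [if_pos h1]
      by_cases h2 : u s ≤ θ (r + 1)
      · rw [if_pos ⟨h1.1, h2⟩]; linarith
      · rw [if_neg (fun h => h2 h.2)]
        have h3 : u (φ σ s) ≤ θ r := by
          have := h1.2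
          simp only [mem_filter, mem_univ, true_and, not_lt] at this
          exact this
        have h4 : θ (r + 1) = θ r + 1 / (2 * N) := by
          simp only [θ]; push_cast; ring
        have h5 : 1 / (2 * N) ≤ u s - u (φ σ s) := by
          push Not at h2; linarith
        rw [div_le_iff₀ (by positivity)] at h5
        nlinarith
    · rw [if_neg h1]
      split_ifs <;> linarith

theorem thr_diff (u : A → ℝ) (q : Finset A) (θ : ℝ) (h1 : 1 / 4 ≤ θ) (h2 : θ ≤ 3 / 4) :
    (#((univ.filter fun s => θ < u s) \ q) + #(q \ univ.filter fun s => θ < u s) : ℝ) ≤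
      16 * ∑ s, ((if s ∈ q then 1 else 0) - u s) ^ 2 := by
  have e1 : ((univ.filter fun s => θ < u s) \ q) = univ.filter fun s => θ < u s ∧ s ∉ q := by
    ext s; simp
  have e2 : (q \ univ.filter fun s => θ < u s) = univ.filter fun s => s ∈ q ∧ u s ≤ θ := by
    ext s; simp
  rw [e1, e2]
  simp only [card_filter]
  push_cast
  rw [mul_sum, ← sum_add_distrib]
  refine sum_le_sum fun s _ => ?_
  by_cases hq : s ∈ q
  · simp only [hq, not_true, and_false, if_false, true_and, if_true]
    split_ifs with h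
    · nlinarith
    · nlinarith [sq_nonneg (1 - u s)]
  · simp only [hq, not_false_iff, and_true, false_and, if_false]
    split_ifs with h
    · nlinarith
    · nlinarith [sq_nonneg (0 - u s)]

end Pool.Agent.H840Z.NS
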