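import Pool.Agent.H840Z.NS.Comb
import Pool.Agent.H515Z.GMKer

/-!
Decomposition of an approximate action of a Kazhdan group into expanding pieces.
-/

set_option autoImplicit false
set_option linter.unusedSectionVars false

namespace Pool.Agent.H840Z.NS

open Finset
open scoped InnerProductSpace
open Pool.Agent.H304Z.NH Pool.Agent.H515Z.GM

variable {L : Type} [Group L] {A : Type} [Fintype A] [DecidableEq A]

/-- a real function as a vector -/
noncomputable def emb (f : A → ℝ) : EuclideanSpace ℂ A := WithLp.toLp 2 fun s => (f s : ℂ)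

theorem emb_norm (f : A → ℝ) : ‖emb f‖ ^ 2 = ∑ s, f s ^ 2 := by
  rw [EuclideanSpace.norm_sq_eq]
  simp [emb]

theorem emb_sub (f g : A → ℝ) : emb f - emb g = emb fun s => f s - g s := by
  ext s; simp [emb]

theorem emb_avg {I : Type} [Fintype I] (f : I → A → ℝ) :
    avg (fun i => emb (f i)) = emb fun s => (Fintype.card I : ℝ)⁻¹ * ∑ i, f i s := by
  ext s; simp [emb, avg]

/-- permutation of coordinates -/
noncomputable def pm (σ : Equiv.Perm A) : EuclideanSpace ℂ A ≃ₗᵢ[ℂ] EuclideanSpace ℂ A :=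
  LinearIsometryEquiv.piLpCongrLeft 2 ℂ ℂ σ

theorem pm_emb (σ : Equiv.Perm A) (f : A → ℝ) : pm σ (emb f) = emb fun s => f (σ.symm s) := by
  ext s; simp [pm, emb]

/-- indicator function of the image of `q` -/
def chi (q : Finset A) (σ : Equiv.Perm A) (s : A) : ℝ := if σ.symm s ∈ q then 1 else 0

theorem sum_ite_perm (σ : Equiv.Perm A) (p : A → Prop) [DecidablePred p] :
    ∑ s, (if p (σ s) then (1 : ℝ) else 0) = #(univ.filter p) := by
  rw [← card_filter_perm σ p, card_filter]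
  push_cast
  rfl

theorem chi_sum (q : Finset A) (σ : Equiv.Perm A) : ∑ s, chi q σ s = #q := by
  unfold chi
  rw [sum_ite_perm σ.symm (fun s => s ∈ q)]
  simp

theorem chi_sq (q : Finset A) (σ : Equiv.Perm A) : ∑ s, chi q σ s ^ 2 = #q := by
  rw [← chi_sum q σ]
  refine sum_congr rfl fun s _ => ?_
  unfold chi
  split_ifs <;> simp

theorem chi_diff (q : Finset A) (σ τ : Equiv.Perm A) :
    ∑ s, (chi q σ s - chi q τ s) ^ 2 ≤ 2 * #(q.filter fun s => σ s ≠ τ s) := by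
  have e : q.filter (fun s => σ s ≠ τ s) = univ.filter fun s => s ∈ q ∧ σ s ≠ τ s := by
    ext s; simp
  rw [two_mul, e]
  nth_rewrite 1 [← sum_ite_perm σ.symm (fun s => s ∈ q ∧ σ s ≠ τ s)]
  rw [← sum_ite_perm τ.symm (fun s => s ∈ q ∧ σ s ≠ τ s), ← sum_add_distrib]
  refine sum_le_sum fun s _ => ?_
  unfold chi
  by_cases h1 : σ.symm s ∈ q <;> by_cases h2 : τ.symm s ∈ q
  · simp only [h1, h2, if_true, sub_self]
    split_ifs <;> norm_num
  · have h3 : σ (σ.symm s) ≠ τ (σ.symm s) := by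
      intro h
      apply h2
      rw [Equiv.apply_symm_apply] at h
      rw [← (Equiv.symm_apply_eq τ).mpr h] at h1
      exact h1
    simp only [h1, h2, h3, if_true, if_false, ne_eq, not_false_iff, and_self, false_and]
    norm_num
  · have h3 : σ (τ.symm s) ≠ τ (τ.symm s) := by
      intro h
      apply h1
      rw [Equiv.apply_symm_apply] at h
      rw [← (Equiv.symm_apply_eq σ).mpr h.symm] at h2
      exact h2
    simp only [h1, h2, h3, if_true, if_false, ne_eq, not_false_iff, and_self, false_and]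
    norm_num
  · simp [h1, h2]

theorem chi_out (q : Finset A) (σ : Equiv.Perm A) :
    ∑ s, (chi q σ s - chi q 1 s) ^ 2 ≤ 2 * out σ q := by
  have e : (out σ q : ℝ) = #(univ.filter fun s => s ∈ q ∧ σ s ∉ q) := by
    unfold out; congr 2; ext s; simp
  rw [two_mul]
  nth_rewrite 1 [e]
  rw [← card_enter σ q, ← sum_ite_perm σ.symm (fun s => s ∈ q ∧ σ s ∉ q),
    ← sum_ite_perm σ.symm (fun s => s ∉ q ∧ σ s ∈ q), ← sum_add_distrib]
  refine sum_le_sum fun s _ => ?_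
  unfold chi
  have e1 : (1 : Equiv.Perm A).symm s = s := rfl
  rw [e1, Equiv.apply_symm_apply]
  by_cases h1 : σ.symm s ∈ q <;> by_cases h2 : s ∈ q <;> simp [h1, h2]

theorem le_dfc (φ : L → Equiv.Perm A) (W : Finset L) (V : Finset A) {g h : L} (hg : g ∈ W)
    (hh : h ∈ W) : #(V.filter fun s => φ g (φ h s) ≠ φ (g * h) s) ≤ dfc φ W V := by
  unfold dfc
  refine le_trans ?_ (single_le_sum (f := fun g => ∑ h ∈ W,
    #(V.filter fun s => φ g (φ h s) ≠ φ (g * h) s)) (fun _ _ => Nat.zero_le _) hg)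
  exact single_le_sum (f := fun h => #(V.filter fun s => φ g (φ h s) ≠ φ (g * h) s))
    (fun _ _ => Nat.zero_le _) hh

/-- smoothing of an indicator function -/
theorem smooth {S : Finset L} (hK : Kaz L S) : ∃ K : ℝ, 0 ≤ K ∧ ∀ η : ℝ, 0 < η →
    ∃ (W : Finset L) (δ : ℝ), 0 < δ ∧ ∀ (A : Type) [Fintype A] [DecidableEq A]
      (φ : L → Equiv.Perm A), φ 1 = 1 → ∀ q : Finset A, (dfc φ W q : ℝ) ≤ δ * #q →
      ∃ u : A → ℝ, (∀ s, 0 ≤ u s) ∧ ∑ s, u s = #q ∧
        ∑ σ ∈ S, ∑ s, (u (φ σ s) - u s) ^ 2 ≤ η * #q ∧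
        ∑ s, ((if s ∈ q then 1 else 0) - u s) ^ 2 ≤ K * bd φ S q + η * #q := by
  classical
  obtain ⟨K, hK0, hK⟩ := ker_gap hK
  refine ⟨2 * K, by positivity, fun η hη => ?_⟩
  obtain ⟨I, _, _, γ, W, δ, hδ, hW⟩ := hK (η / 4) (by positivity)
  obtain ⟨ρ, hρ, hρ1, hρ2⟩ : ∃ ρ : ℝ, 0 < ρ ∧ 2 * ρ ≤ δ ∧ #S * ρ ^ 2 ≤ η / 4 := by
    refine ⟨min (δ / 2) (min 1 (η / 4 / (#S + 1))), by positivity, ?_, ?_⟩
    · have := min_le_left (δ / 2) (min 1 (η / 4 / (#S + 1)))
      linarith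
    · set ρ := min (δ / 2) (min 1 (η / 4 / (#S + 1))) with hρ
      have h0 : 0 < ρ := by positivity
      have h1 : ρ ≤ 1 := (min_le_right _ _).trans (min_le_left _ _)
      have h2 : ρ ≤ η / 4 / (#S + 1) := (min_le_right _ _).trans (min_le_right _ _)
      rw [le_div_iff₀ (by positivity)] at h2
      have h3 : (0 : ℝ) ≤ #S := Nat.cast_nonneg _
      nlinarith [mul_nonneg h3 h0.le]
  refine ⟨W ∪ S ∪ univ.image γ, ρ ^ 2 / 2, by positivity, ?_⟩
  intro A _ _ φ hφ q hq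
  rcases q.eq_empty_or_nonempty with rfl | hne
  · exact ⟨fun _ => 0, fun _ => le_rfl, by simp, by simp, by simp [bd, out]⟩
  have hc : (0 : ℝ) < #q := by exact_mod_cast hne.card_pos
  set r : ℝ := (Real.sqrt #q)⁻¹ with hr
  have hr2 : r ^ 2 * #q = 1 := by
    rw [hr, inv_pow, Real.sq_sqrt hc.le, inv_mul_cancel₀ hc.ne']
  let ξ : L → EuclideanSpace ℂ A := fun g => emb fun s => r * chi q (φ g) s
  have hsc : ∀ f g : A → ℝ, ‖emb (fun s => r * f s) - emb (fun s => r * g s)‖ ^ 2 =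
      r ^ 2 * ∑ s, (f s - g s) ^ 2 := by
    intro f g
    rw [emb_sub, emb_norm, mul_sum]
    exact sum_congr rfl fun s _ => by ring
  have hξ1 : ∀ g, ‖ξ g‖ ≤ 1 := by
    intro g
    have h1 : ‖ξ g‖ ^ 2 = 1 := by
      simp only [ξ]
      rw [emb_norm]
      simp only [mul_pow]
      rw [← mul_sum, chi_sq, hr2]
    nlinarith [norm_nonneg (ξ g)]
  have hD : ∀ a ∈ W ∪ S ∪ univ.image γ, ∀ g ∈ W ∪ S ∪ univ.image γ,
      ‖pm (φ a) (ξ g) - ξ (a * g)‖ ≤ ρ := by
    intro a ha g hg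
    have h1 : pm (φ a) (ξ g) = emb fun s => r * chi q (φ a * φ g) s := by
      simp only [ξ]
      rw [pm_emb]
      rfl
    have h2 : ‖pm (φ a) (ξ g) - ξ (a * g)‖ ^ 2 ≤ ρ ^ 2 := by
      rw [h1]
      simp only [ξ]
      rw [hsc]
      have h3 := chi_diff q (φ a * φ g) (φ (a * g))
      have h4 : (#(q.filter fun s => (φ a * φ g) s ≠ φ (a * g) s) : ℝ) ≤
          dfc φ (W ∪ S ∪ univ.image γ) q := by
        exact_mod_cast le_dfc φ _ q ha hg
      calc _ ≤ r ^ 2 * (ρ ^ 2 * #q) := mul_le_mul_of_nonneg_left (by linarith) (sq_nonneg r)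
        _ = ρ ^ 2 * (r ^ 2 * #q) := by ring
        _ = ρ ^ 2 := by rw [hr2, mul_one]
    exact abs_le_of_sq_le_sq' h2 hρ.le |>.2
  obtain ⟨h1, h2⟩ := hW (EuclideanSpace ℂ A) ξ hξ1 (by
    intro a ha g hg h hh
    have e1 : ⟪ξ g, ξ h⟫_ℂ = ⟪pm (φ a) (ξ g), pm (φ a) (ξ h)⟫_ℂ :=
      ((pm (φ a)).inner_map_map _ _).symm
    have e2 : ⟪ξ (a * g), ξ (a * h)⟫_ℂ - ⟪pm (φ a) (ξ g), pm (φ a) (ξ h)⟫_ℂ =
        -(⟪pm (φ a) (ξ g) - ξ (a * g), ξ (a * h)⟫_ℂ +
          ⟪pm (φ a) (ξ g), pm (φ a) (ξ h) - ξ (a * h)⟫_ℂ) := by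
      rw [inner_sub_left, inner_sub_right]; ring
    have m : ∀ x ∈ W, x ∈ W ∪ S ∪ univ.image γ := fun x hx =>
      mem_union_left _ (mem_union_left _ hx)
    rw [e1, e2, norm_neg]
    have e3 := hD a (m a ha) g (m g hg)
    have e4 := hD a (m a ha) h (m h hh)
    have e5 : ‖pm (φ a) (ξ g)‖ ≤ 1 := by rw [LinearIsometryEquiv.norm_map]; exact hξ1 g
    have e6 := hξ1 (a * h)
    calc _ ≤ ‖pm (φ a) (ξ g) - ξ (a * g)‖ * ‖ξ (a * h)‖ +
          ‖pm (φ a) (ξ g)‖ * ‖pm (φ a) (ξ h) - ξ (a * h)‖ :=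
          (norm_add_le _ _).trans (add_le_add (norm_inner_le_norm _ _) (norm_inner_le_norm _ _))
      _ ≤ ρ * 1 + 1 * ρ := add_le_add (mul_le_mul e3 e6 (norm_nonneg _) hρ.le)
          (mul_le_mul e5 e4 (norm_nonneg _) zero_le_one)
      _ ≤ δ := by linarith)
  let u : A → ℝ := fun s => (Fintype.card I : ℝ)⁻¹ * ∑ i, chi q (φ (γ i)) s
  have hI : (0 : ℝ) < Fintype.card I := by exact_mod_cast Fintype.card_pos
  have hav : avg (fun i => ξ (γ i)) = emb fun s => r * u s := by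
    simp only [ξ]
    rw [emb_avg]
    congr 1
    funext s
    simp only [u]
    rw [← mul_sum]; ring
  refine ⟨u, fun s => ?_, ?_, ?_, ?_⟩
  · refine mul_nonneg (by positivity) (sum_nonneg fun i _ => ?_)
    unfold chi
    split_ifs <;> norm_num
  · simp only [u]
    rw [← mul_sum, sum_comm]
    simp only [chi_sum, sum_const, card_univ, nsmul_eq_mul]
    rw [← mul_assoc, inv_mul_cancel₀ hI.ne', one_mul]
  · have h3 : ∀ σ ∈ S, r ^ 2 * ∑ s, (u (φ σ s) - u s) ^ 2 ≤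
        2 * ρ ^ 2 + 2 * ‖avg (fun i => ξ (σ * γ i)) - avg (fun i => ξ (γ i))‖ ^ 2 := by
      intro σ hσ
      have e1 : ‖pm (φ σ) (avg fun i => ξ (γ i)) - avg (fun i => ξ (γ i))‖ ^ 2 =
          r ^ 2 * ∑ s, (u (φ σ s) - u s) ^ 2 := by
        rw [hav, pm_emb, hsc, ← Equiv.sum_comp (φ σ)]
        congr 1
        refine sum_congr rfl fun s _ => ?_
        rw [Equiv.symm_apply_apply]; ring
      have e2 : ‖pm (φ σ) (avg fun i => ξ (γ i)) - avg (fun i => ξ (σ * γ i))‖ ≤ ρ := by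
        have e3 := map_avg (pm (φ σ)).toLinearEquiv.toLinearMap (fun i => ξ (γ i))
        have e4 : pm (φ σ) (avg fun i => ξ (γ i)) = avg fun i => pm (φ σ) (ξ (γ i)) := e3
        rw [e4, ← avg_sub]
        exact norm_avg_le _ _ fun i => hD σ (mem_union_left _ (mem_union_right _ hσ)) (γ i)
          (mem_union_right _ (mem_image_of_mem _ (mem_univ i)))
      rw [← e1]
      have e5 := norm_sub_le_norm_sub_add_norm_sub (pm (φ σ) (avg fun i => ξ (γ i)))
        (avg (fun i => ξ (σ * γ i))) (avg (fun i => ξ (γ i)))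
      have e6 := norm_nonneg (pm (φ σ) (avg fun i => ξ (γ i)) - avg (fun i => ξ (γ i)))
      have e7 := norm_nonneg (avg (fun i => ξ (σ * γ i)) - avg (fun i => ξ (γ i)))
      nlinarith [sq_nonneg (ρ - ‖avg (fun i => ξ (σ * γ i)) - avg (fun i => ξ (γ i))‖)]
    have h4 := sum_le_sum h3
    rw [← mul_sum, sum_add_distrib, ← mul_sum, ← mul_sum, sum_const, nsmul_eq_mul] at h4
    calc _ = (r ^ 2 * ∑ σ ∈ S, ∑ s, (u (φ σ s) - u s) ^ 2) * #q := by
          rw [mul_comm (r ^ 2), mul_assoc, hr2, mul_one]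
      _ ≤ η * #q := mul_le_mul_of_nonneg_right (by linarith) hc.le
  · have e1 : ‖ξ 1 - avg (fun i => ξ (γ i))‖ ^ 2 =
        r ^ 2 * ∑ s, ((if s ∈ q then 1 else 0) - u s) ^ 2 := by
      rw [hav]
      simp only [ξ]
      rw [hsc, hφ]
      rfl
    have e2 : ∑ σ ∈ S, ‖ξ σ - ξ 1‖ ^ 2 ≤ r ^ 2 * (2 * bd φ S q) := by
      unfold bd
      push_cast
      rw [mul_sum, mul_sum]
      refine sum_le_sum fun σ _ => ?_
      simp only [ξ]
      rw [hsc, hφ]
      exact mul_le_mul_of_nonneg_left (chi_out q (φ σ)) (sq_nonneg r)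
    have e3 := mul_le_mul_of_nonneg_left e2 hK0
    calc _ = (r ^ 2 * ∑ s, ((if s ∈ q then 1 else 0) - u s) ^ 2) * #q := by
          rw [mul_comm (r ^ 2), mul_assoc, hr2, mul_one]
      _ ≤ (K * (r ^ 2 * (2 * bd φ S q)) + η) * #q :=
          mul_le_mul_of_nonneg_right (by linarith) hc.le
      _ = 2 * K * bd φ S q * (r ^ 2 * #q) + η * #q := by ring
      _ = _ := by rw [hr2, mul_one]

/-- improvement of an almost invariant set -/
theorem imp {S : Finset L} (hK : Kaz L S) : ∃ K : ℝ, 0 ≤ K ∧ ∀ η : ℝ, 0 < η →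
    ∃ (W : Finset L) (δ : ℝ), 0 < δ ∧ ∀ (A : Type) [Fintype A] [DecidableEq A]
      (φ : L → Equiv.Perm A), φ 1 = 1 → ∀ q : Finset A, (dfc φ W q : ℝ) ≤ δ * #q →
      ∃ U : Finset A, (bd φ S U : ℝ) ≤ η * #q ∧
        (#(U \ q) + #(q \ U) : ℝ) ≤ K * bd φ S q + η * #q := by
  obtain ⟨K, hK0, hK⟩ := smooth hK
  refine ⟨16 * K, by positivity, fun η hη => ?_⟩
  obtain ⟨N, hN⟩ := exists_nat_gt (8 * #S / η + 2)
  have hN2 : (2 : ℝ) < N := lt_of_le_of_lt (by have : (0 : ℝ) ≤ 8 * #S / η := by positivity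
                                               linarith) hN
  have hN0 : 0 < N := by exact_mod_cast (lt_trans (by norm_num) hN2 : (0 : ℝ) < N)
  obtain ⟨W, δ, hδ, hW⟩ := hK (η / (8 * N ^ 2)) (by positivity)
  refine ⟨W, δ, hδ, ?_⟩
  intro A _ _ φ hφ q hq
  obtain ⟨u, h1, h2, h3, h4⟩ := hW A φ hφ q hq
  obtain ⟨θ, hθ1, hθ2, hθ⟩ := thr φ S u h1 N hN0
  have hc : (0 : ℝ) ≤ #q := Nat.cast_nonneg _
  refine ⟨univ.filter fun s => θ < u s, hθ.trans ?_, (thr_diff u q θ hθ1 hθ2).trans ?_⟩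
  · rw [h2]
    have e1 : 4 * (N : ℝ) ^ 2 * ∑ σ ∈ S, ∑ s, (u (φ σ s) - u s) ^ 2 ≤ η / 2 * #q := by
      calc _ ≤ 4 * (N : ℝ) ^ 2 * (η / (8 * N ^ 2) * #q) :=
            mul_le_mul_of_nonneg_left h3 (by positivity)
        _ = _ := by field_simp; ring
    have e2 : (#S : ℝ) * (4 * #q) / N ≤ η / 2 * #q := by
      rw [div_le_iff₀ (by linarith)]
      have e3 : 8 * (#S : ℝ) / η ≤ N := by linarith
      rw [div_le_iff₀ hη] at e3
      nlinarith
    linarith
  · have e1 : 16 * (η / (8 * (N : ℝ) ^ 2)) ≤ η := by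
      rw [← mul_div_assoc, div_le_iff₀ (by positivity)]
      have e2 : (2 : ℝ) ≤ N ^ 2 := by nlinarith
      nlinarith
    have e2 := mul_le_mul_of_nonneg_right e1 hc
    linarith

/-- decomposition into expanding pieces -/
theorem dec {S : Finset L} (hK : Kaz L S) : ∃ γ : ℝ, 0 < γ ∧ ∀ η : ℝ, 0 < η →
    ∃ (W : Finset L) (δ : ℝ), 0 < δ ∧ ∀ (A : Type) [Fintype A] [DecidableEq A]
      (φ : L → Equiv.Perm A), φ 1 = 1 → (dfc φ W univ : ℝ) ≤ δ * Fintype.card A →
      ∃ c : A → Finset A, Part univ c ∧ Expa φ S γ univ c ∧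
        (cost φ S univ c : ℝ) ≤ η * Fintype.card A := by
  obtain ⟨K, hK0, hK⟩ := imp hK
  set γ : ℝ := 1 / (4 * (K + 1)) with hγ
  have hγ0 : 0 < γ := by positivity
  have hKγ : K * γ ≤ 1 / 4 := by
    rw [hγ, mul_one_div, div_le_div_iff₀ (by positivity) (by positivity)]; linarith
  refine ⟨γ, hγ0, fun η hη => ?_⟩
  set M : ℝ := #S / γ with hM
  have hM0 : 0 ≤ M := by positivity
  obtain ⟨η1, hη1, hη2, hη3⟩ : ∃ η1 : ℝ, 0 < η1 ∧ η1 ≤ 1 / 4 ∧ (M + 2) * η1 ≤ η / 4 := by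
    refine ⟨min (1 / 4) (η / 4 / (M + 2)), by positivity, min_le_left _ _, ?_⟩
    have := min_le_right (1 / 4) (η / 4 / (M + 2))
    rw [le_div_iff₀ (by positivity)] at this
    linarith
  obtain ⟨W, δ, hδ, hW⟩ := hK η1 hη1
  set lam : ℝ := (M + 2) * γ / δ with hlam
  have hlam0 : 0 < lam := by positivity
  refine ⟨W, η / 2 / lam, by positivity, ?_⟩
  intro A _ _ φ hφ hd
  have key : ∀ R : Finset A, ∃ c : A → Finset A, Part R c ∧ Expa φ S γ R c ∧
      (cost φ S R c : ℝ) ≤ η / 2 * #R + lam * dfc φ W R + M * bd φ S R := by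
    intro R
    induction R using Finset.strongInduction with
    | H R ih =>
    by_cases hR : R.Nonempty ∧ (bd φ S R : ℝ) ≤ γ * #R
    swap
    · refine ⟨fun s => {s}, part_single R, expa_single φ S γ R, ?_⟩
      have h1 : (cost φ S R (fun s => {s}) : ℝ) ≤ #S * #R := by exact_mod_cast cost_le φ S R _
      have h2 : (#S : ℝ) * #R ≤ M * bd φ S R := by
        rcases R.eq_empty_or_nonempty with rfl | hne
        · simp only [card_empty, Nat.cast_zero, mul_zero]; positivity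
        · have h3 : γ * #R ≤ bd φ S R := le_of_lt (not_le.mp fun h => hR ⟨hne, h⟩)
          calc (#S : ℝ) * #R = M * (γ * #R) := by rw [hM]; field_simp
            _ ≤ _ := mul_le_mul_of_nonneg_left h3 hM0
      have h3 : (0 : ℝ) ≤ η / 2 * #R + lam * dfc φ W R := by positivity
      linarith
    classical
    obtain ⟨q, hq, hmin⟩ := exists_min_image
      (R.powerset.filter fun q => q.Nonempty ∧ (bd φ S q : ℝ) ≤ γ * #q) card
      ⟨R, mem_filter.mpr ⟨mem_powerset_self R, hR⟩⟩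
    obtain ⟨hqR, hqne, hqb⟩ : q ⊆ R ∧ q.Nonempty ∧ (bd φ S q : ℝ) ≤ γ * #q := by
      simpa using hq
    have hexp : ∀ V ⊆ R, #V < #q → γ * #V ≤ bd φ S V := by
      intro V hV hlt
      rcases V.eq_empty_or_nonempty with rfl | hne
      · simp
      · by_contra hcon
        exact absurd (hmin V (mem_filter.mpr ⟨mem_powerset.mpr hV, hne, (not_le.mp hcon).le⟩))
          (not_le.mpr hlt)
    have hc : (0 : ℝ) < #q := by exact_mod_cast hqne.card_pos
    obtain ⟨U, hU1, hU2, hU3⟩ : ∃ U : Finset A, (U ∩ R).Nonempty ∧ #(U ∩ R) < 2 * #q ∧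
        (M + 2) * bd φ S U ≤ η / 2 * #(U ∩ R) + lam * dfc φ W (U ∩ R) := by
      by_cases hgood : (dfc φ W q : ℝ) ≤ δ * #q
      · obtain ⟨U, h1, h2⟩ := hW A φ hφ q hgood
        have h3 : (#(U \ q) + #(q \ U) : ℝ) ≤ #q / 2 := by
          have := mul_le_mul_of_nonneg_left hqb hK0
          nlinarith
        have h4 : (#(q \ U) + #(q ∩ U) : ℝ) = #q := by
          exact_mod_cast card_sdiff_add_card_inter q U
        have h5 : (#(U \ q) + #(U ∩ q) : ℝ) = #U := by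
          exact_mod_cast card_sdiff_add_card_inter U q
        have h6 : (#(q ∩ U) : ℝ) ≤ #(U ∩ R) := by
          exact_mod_cast card_le_card fun s hs =>
            mem_inter.mpr ⟨(mem_inter.mp hs).2, hqR (mem_inter.mp hs).1⟩
        have h7 : (#(U ∩ R) : ℝ) ≤ #U := by exact_mod_cast card_le_card inter_subset_left
        have h8 : (#(U ∩ q) : ℝ) ≤ #q := by exact_mod_cast card_le_card inter_subset_right
        have h9 : (0 : ℝ) ≤ #(U \ q) := Nat.cast_nonneg _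
        have h10 : (0 : ℝ) ≤ #(q \ U) := Nat.cast_nonneg _
        refine ⟨U, ?_, ?_, ?_⟩
        · rw [← card_pos]
          have : (0 : ℝ) < #(U ∩ R) := by linarith
          exact_mod_cast this
        · have : (#(U ∩ R) : ℝ) < 2 * #q := by linarith
          exact_mod_cast this
        · have e1 : (M + 2) * (bd φ S U : ℝ) ≤ (M + 2) * (η1 * #q) :=
            mul_le_mul_of_nonneg_left h1 (by positivity)
          have e2 : (0 : ℝ) ≤ lam * dfc φ W (U ∩ R) := by positivity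
          have e3 : (M + 2) * η1 * #q ≤ η / 4 * #q := mul_le_mul_of_nonneg_right hη3 hc.le
          have e4 : η / 4 * #q ≤ η / 2 * #(U ∩ R) := by nlinarith
          linarith
      · have e : q ∩ R = q := inter_eq_left.mpr hqR
        refine ⟨q, e.symm ▸ hqne, by rw [e]; have := hqne.card_pos; omega, ?_⟩
        rw [e]
        have e1 : (M + 2) * (bd φ S q : ℝ) ≤ (M + 2) * (γ * #q) :=
          mul_le_mul_of_nonneg_left hqb (by positivity)
        have e2 : (M + 2) * (γ * #q) = lam * (δ * #q) := by rw [hlam]; field_simp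
        have e3 : lam * (δ * #q) ≤ lam * dfc φ W q :=
          mul_le_mul_of_nonneg_left (not_le.mp hgood).le hlam0.le
        have e4 : (0 : ℝ) ≤ η / 2 * #q := by positivity
        linarith
    have hss : R \ U ⊂ R := by
      obtain ⟨s, hs⟩ := hU1
      exact ssubset_iff_of_subset sdiff_subset |>.mpr
        ⟨s, (mem_inter.mp hs).2, fun h => (mem_sdiff.mp h).2 (mem_inter.mp hs).1⟩
    obtain ⟨c, hp, he, hcost⟩ := ih (R \ U) hss
    obtain ⟨c', hp', he', hcost'⟩ := step φ S γ R U c hp he fun V hV h2 =>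
      hexp V (hV.trans inter_subset_right) (by omega)
    refine ⟨c', hp', he', ?_⟩
    have e1 : (cost φ S R c' : ℝ) ≤ cost φ S (R \ U) c + 2 * bd φ S U := by exact_mod_cast hcost'
    have e2 : (bd φ S (R \ U) : ℝ) ≤ bd φ S R + bd φ S U := by exact_mod_cast bd_sdiff φ S R U
    have e3 : (dfc φ W R : ℝ) = dfc φ W (R \ U) + dfc φ W (U ∩ R) := by
      exact_mod_cast dfc_split φ W R U
    have e4 : (#(R \ U) + #(U ∩ R) : ℝ) = #R := by
      rw [inter_comm]; exact_mod_cast card_sdiff_add_card_inter R U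
    have e5 := mul_le_mul_of_nonneg_left e2 hM0
    rw [e3, ← e4]
    linarith
  obtain ⟨c, hp, he, hcost⟩ := key univ
  refine ⟨c, hp, he, hcost.trans ?_⟩
  have e1 : bd φ S (univ : Finset A) = 0 := by simp [bd, out]
  have e2 : lam * dfc φ W univ ≤ lam * (η / 2 / lam * Fintype.card A) :=
    mul_le_mul_of_nonneg_left hd hlam0.le
  have e3 : lam * (η / 2 / lam * Fintype.card A) = η / 2 * Fintype.card A := by field_simp
  rw [e1, card_univ]
  simp only [Nat.cast_zero, mul_zero, add_zero]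
  linarith

end Pool.Agent.H840Z.NS
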