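import Pool.Agent.H840Z.NS.Lim
import Pool.Agent.H304Z.Pair

/-!
The example: elementary matrices over a polynomial ring in three variables, together with
monomial substitutions, acting on functions on the lattice.
-/

set_option autoImplicit false
set_option linter.unusedSectionVars false

namespace Pool.Agent.H840Z.NS

open Pool.Agent.H304Z Pool.Agent.H304Z.NH Pool.Agent.H499Z.SoficAct

/-- Free actions of residually finite groups are sofic. -/
theorem sofic_free {G X : Type} [Group G] (α : G →* Equiv.Perm X)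
    (hfree : ∀ g x, α g x = x → g = 1)
    (hRF : ∀ T : Set G, T.Finite → ∃ (Q : Type) (_ : Group Q) (_ : Finite Q) (q : G →* Q),
      ∀ g ∈ T, g ≠ 1 → q g ≠ 1) : IsSofic α := by
  classical
  intro F E ε hε
  have hT : (⋃ x ∈ E, ⋃ y ∈ E, {g : G | α g y = x}).Finite := by
    refine E.finite_toSet.biUnion fun x _ => E.finite_toSet.biUnion fun y _ => ?_
    refine Set.Subsingleton.finite fun g hg h hh => ?_
    have h1 : α (h⁻¹ * g) y = y := by
      rw [map_mul, Equiv.Perm.mul_apply, hg, map_inv, Equiv.Perm.inv_eq_iff_eq]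
      exact hh.symm
    exact (inv_mul_eq_one.mp (hfree _ _ h1)).symm
  obtain ⟨Q, _, _, q, hq⟩ := hRF _ hT
  let q' := q.rangeRestrict
  have hsurj : Function.Surjective q' := q.rangeRestrict_surjective
  letI : Fintype q.range := Fintype.ofFinite _
  let P : q.range × E → Set X := fun p => {z | ∃ g, q' g = p.1⁻¹ ∧ z = α g p.2}
  refine ⟨q.range, inferInstance, fun g => Equiv.mulLeft (q' g), by simp, ?_, ?_⟩
  · intro g _ h _
    have e : Equiv.mulLeft (q' (g * h)) = Equiv.mulLeft (q' g) * Equiv.mulLeft (q' h) := by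
      ext s; simp
    simp only [hamming, e]
    simpa using hε
  · refine ⟨Set.range P, Set.finite_range P, Finset.univ,
      fun s => ⟨fun x => ⟨P (s.1, x), _, rfl⟩, ?_⟩, ?_, ?_⟩
    · intro x y hxy
      have h1 : P (s.1, x) = P (s.1, y) := congrArg Subtype.val hxy
      obtain ⟨g, hg⟩ := hsurj s.1⁻¹
      have h2 : α g x ∈ P (s.1, y) := h1 ▸ ⟨g, hg, rfl⟩
      obtain ⟨g', hg', e⟩ := h2
      have h3 : α (g⁻¹ * g') y = x := by
        rw [map_mul, Equiv.Perm.mul_apply, ← e, map_inv, Equiv.Perm.inv_eq_iff_eq]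
      have h4 : q (g⁻¹ * g') = 1 := by
        have h5 : q' (g⁻¹ * g') = 1 := by rw [map_mul, map_inv, hg, hg', inv_mul_cancel]
        exact congrArg Subtype.val h5
      have h5 : g⁻¹ * g' = 1 := by
        by_contra hne
        exact hq _ (Set.mem_biUnion x.2 (Set.mem_biUnion y.2 h3)) hne h4
      rw [h5, map_one] at h3
      exact Subtype.ext h3.symm
    · have : (0 : ℝ) < Fintype.card q.range := by exact_mod_cast Fintype.card_pos
      rw [Finset.card_univ]
      nlinarith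
    · intro s g _ x hs hx
      apply Subtype.ext
      show P (q' g * s.1, x) = P (s.1, ⟨α g⁻¹ x, hx⟩)
      ext z
      constructor
      · rintro ⟨k, hk, rfl⟩
        refine ⟨k * g, by rw [map_mul, hk]; simp, ?_⟩
        simp
      · rintro ⟨k, hk, rfl⟩
        refine ⟨k * g⁻¹, by rw [map_mul, hk]; simp, ?_⟩
        simp

/-- the lattice of exponents -/
abbrev Mo : Type := Fin 3 → ℤ

/-- elementary transformations of the lattice -/
def tz {i j : Fin 3} (h : i ≠ j) : Equiv.Perm Mo where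
  toFun m := m + Pi.single i (m j)
  invFun m := m - Pi.single i (m j)
  left_inv m := by simp [Pi.single_eq_of_ne h.symm]
  right_inv m := by simp [Pi.single_eq_of_ne h.symm]

theorem tz_apply {i j : Fin 3} (h : i ≠ j) (m : Mo) : tz h m = m + Pi.single i (m j) := rfl

theorem tz_symm {i j : Fin 3} (h : i ≠ j) (m : Mo) : (tz h).symm m = m - Pi.single i (m j) := rfl

theorem tz_comm {i j k l : Fin 3} (hij : i ≠ j) (hkl : k ≠ l) (h1 : j ≠ k) (h2 : l ≠ i) :
    Commute (tz hij) (tz hkl) := by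
  ext m : 1
  simp only [Equiv.Perm.mul_apply, tz_apply, Pi.add_apply, Pi.single_eq_of_ne h1,
    Pi.single_eq_of_ne h2, add_zero]
  abel

theorem tz_heis {i j k : Fin 3} (hij : i ≠ j) (hjk : j ≠ k) (hik : i ≠ k) :
    tz hij * tz hjk = tz hjk * tz hij * tz hik := by
  ext m : 1
  simp only [Equiv.Perm.mul_apply, tz_apply, Pi.add_apply, Pi.single_eq_same,
    Pi.single_eq_of_ne hij.symm, Pi.single_eq_of_ne hik.symm, add_zero, Pi.single_add]
  abel

theorem tz_symm_add {i j : Fin 3} (h : i ≠ j) (m n : Mo) :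
    (tz h).symm (m + n) = (tz h).symm m + (tz h).symm n := by
  simp only [tz_symm, Pi.add_apply, Pi.single_add]; abel

theorem tz_add {i j : Fin 3} (h : i ≠ j) (m n : Mo) : tz h (m + n) = tz h m + tz h n := by
  simp only [tz_apply, Pi.add_apply, Pi.single_add]; abel

theorem tz_symm_smul {i j : Fin 3} (h : i ≠ j) (c : ℤ) (m : Mo) :
    (tz h).symm (c • m) = c • (tz h).symm m := by
  simp only [tz_symm, Pi.smul_apply, Pi.single_smul, smul_sub]

theorem tz_smul {i j : Fin 3} (h : i ≠ j) (c : ℤ) (m : Mo) : tz h (c • m) = c • tz h m := by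
  simp only [tz_apply, Pi.smul_apply, Pi.single_smul, smul_add]

variable {F : Type} [Field F]

/-- triples of functions on the lattice -/
abbrev Vv (F : Type) : Type := Fin 3 → Mo → F

/-- the elementary matrix with entry `a x^m` -/
def el {i j : Fin 3} (h : i ≠ j) (m : Mo) (a : F) : Equiv.Perm (Vv F) where
  toFun v := v + Pi.single i (fun n => a * v j (n - m))
  invFun v := v - Pi.single i (fun n => a * v j (n - m))
  left_inv v := by simp [Pi.single_eq_of_ne h.symm]
  right_inv v := by simp [Pi.single_eq_of_ne h.symm]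

theorem el_apply {i j : Fin 3} (h : i ≠ j) (m : Mo) (a : F) (v : Vv F) (k : Fin 3) (n : Mo) :
    el h m a v k n = v k n + if k = i then a * v j (n - m) else 0 := by
  show (v + Pi.single i (fun n => a * v j (n - m)) : Vv F) k n = _
  by_cases hk : k = i
  · subst hk; simp
  · simp [hk]

theorem el_add {i j : Fin 3} (h : i ≠ j) (m : Mo) (a b : F) :
    el h m (a + b) = el h m a * el h m b := by
  ext v k n
  simp only [Equiv.Perm.mul_apply, el_apply, if_neg h.symm]
  split_ifs <;> ring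

theorem el_zero {i j : Fin 3} (h : i ≠ j) (m : Mo) : el h m (0 : F) = 1 := by
  ext v k n
  simp [el_apply]

theorem el_inv {i j : Fin 3} (h : i ≠ j) (m : Mo) (a : F) : (el h m a)⁻¹ = el h m (-a) := by
  rw [inv_eq_iff_mul_eq_one, ← el_add, add_neg_cancel, el_zero]

theorem el_comm {i j k l : Fin 3} (hij : i ≠ j) (hkl : k ≠ l) (h1 : j ≠ k) (h2 : l ≠ i)
    (m n : Mo) (a b : F) : el hij m a * el hkl n b = el hkl n b * el hij m a := by
  ext v r p
  simp only [Equiv.Perm.mul_apply, el_apply, if_neg h1, if_neg h2, add_zero]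
  ring

theorem el_heis {i j k : Fin 3} (hij : i ≠ j) (hjk : j ≠ k) (hik : i ≠ k) (m n : Mo) (a b : F) :
    el hij m a * el hjk n b = el hjk n b * (el hij m a * el hik (m + n) (a * b)) := by
  ext v r p
  simp only [Equiv.Perm.mul_apply, el_apply, if_neg hij.symm, if_neg hik.symm, if_true, sub_sub]
  split_ifs <;> ring

/-- substitution -/
def sb : Equiv.Perm Mo →* Equiv.Perm (Vv F) where
  toFun σ :=
    { toFun := fun v i n => v i (σ.symm n)
      invFun := fun v i n => v i (σ n)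
      left_inv := fun v => by simp
      right_inv := fun v => by simp }
  map_one' := rfl
  map_mul' _ _ := rfl

theorem sb_apply (σ : Equiv.Perm Mo) (v : Vv F) (i : Fin 3) (n : Mo) :
    sb σ v i n = v i (σ.symm n) := rfl

theorem sb_el {i j k l : Fin 3} (h : i ≠ j) (h' : k ≠ l) (m : Mo) (a : F) :
    sb (tz h) * el h' m a = el h' (tz h m) a * sb (tz h) := by
  ext v r p
  have e : (tz h).symm (p - tz h m) = (tz h).symm p - m := by
    rw [eq_sub_iff_add_eq]
    nth_rewrite 2 [← (tz h).symm_apply_apply m]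
    rw [← tz_symm_add, sub_add_cancel]
  simp only [Equiv.Perm.mul_apply, el_apply, sb_apply, e]

theorem n01 : (0 : Fin 3) ≠ 1 := by decide
theorem n02 : (0 : Fin 3) ≠ 2 := by decide
theorem n10 : (1 : Fin 3) ≠ 0 := by decide
theorem n12 : (1 : Fin 3) ≠ 2 := by decide
theorem n20 : (2 : Fin 3) ≠ 0 := by decide
theorem n21 : (2 : Fin 3) ≠ 1 := by decide

/-- the six generating lines -/
def ln : Fin 6 → F → Equiv.Perm (Vv F) :=
  ![el n01 0, el n01 (Pi.single 0 1), el n01 (Pi.single 1 1), el n01 (Pi.single 2 1),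
    el n12 0, el n20 0]

variable (F) in
/-- the elementary group over the polynomial ring -/
def LL : Subgroup (Equiv.Perm (Vv F)) := Subgroup.closure {g | ∃ i a, g = ln i a}

theorem ln_mem (i : Fin 6) (a : F) : ln i a ∈ LL F := Subgroup.subset_closure ⟨i, a, rfl⟩

theorem ln_spec (i : Fin 6) : ∃ (k l : Fin 3) (h : k ≠ l) (m : Mo), 0 ≤ m ∧
    (ln i : F → _) = el h m := by
  have h0 : ∀ k : Fin 3, (0 : Mo) ≤ Pi.single k 1 := fun k => by simp
  fin_cases i
  · exact ⟨_, _, n01, _, le_rfl, rfl⟩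
  · exact ⟨_, _, n01, _, h0 0, rfl⟩
  · exact ⟨_, _, n01, _, h0 1, rfl⟩
  · exact ⟨_, _, n01, _, h0 2, rfl⟩
  · exact ⟨_, _, n12, _, le_rfl, rfl⟩
  · exact ⟨_, _, n20, _, le_rfl, rfl⟩

theorem el_step {i j k : Fin 3} (hij : i ≠ j) (hjk : j ≠ k) (hik : i ≠ k) {m n : Mo} {a b : F}
    (h1 : el hij m a ∈ LL F) (h2 : el hjk n b ∈ LL F) : el hik (m + n) (a * b) ∈ LL F := by
  have e : el hik (m + n) (a * b) =
      (el hij m a)⁻¹ * (el hjk n b)⁻¹ * (el hij m a * el hjk n b) := by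
    rw [el_heis hij hjk hik]; group
  rw [e]
  exact mul_mem (mul_mem (inv_mem h1) (inv_mem h2)) (mul_mem h1 h2)

theorem el_all {m : Mo} {a : F} (h : el n01 m a ∈ LL F) {i j : Fin 3} (hij : i ≠ j) :
    el hij m a ∈ LL F := by
  have o12 : el n12 0 (1 : F) ∈ LL F := ln_mem 4 1
  have o20 : el n20 0 (1 : F) ∈ LL F := ln_mem 5 1
  have o10 : el n10 0 (1 : F) ∈ LL F := by simpa using el_step n12 n20 n10 o12 o20
  have r02 : el n02 m a ∈ LL F := by simpa using el_step n01 n12 n02 h o12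
  have r21 : el n21 m a ∈ LL F := by simpa using el_step n20 n01 n21 o20 h
  have r12 : el n12 m a ∈ LL F := by simpa using el_step n10 n02 n12 o10 r02
  have r20 : el n20 m a ∈ LL F := by simpa using el_step n21 n10 n20 r21 o10
  have r10 : el n10 m a ∈ LL F := by simpa using el_step n12 n20 n10 r12 o20
  fin_cases i <;> fin_cases j
  · exact absurd rfl hij
  · exact h
  · exact r02
  · exact r10
  · exact absurd rfl hij
  · exact r12
  · exact r20
  · exact r21
  · exact absurd rfl hij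

theorem el_mem {i j : Fin 3} (hij : i ≠ j) {m : Mo} (hm : 0 ≤ m) (a : F) : el hij m a ∈ LL F := by
  refine el_all ?_ hij
  let N : AddSubmonoid Mo :=
    { carrier := {m | ∀ a : F, el n01 m a ∈ LL F}
      zero_mem' := fun a => ln_mem 0 a
      add_mem' := fun {m n} h1 h2 a => by
        simpa using el_step n02 n21 n01 (el_all (h1 a) n02) (el_all (h2 1) n21) }
  have h0 : ∀ k : Fin 3, Pi.single k 1 ∈ N := by
    intro k a
    fin_cases k
    · exact ln_mem 1 a
    · exact ln_mem 2 a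
    · exact ln_mem 3 a
  have e : m = ∑ k, (m k).toNat • (Pi.single k 1 : Mo) := by
    funext r
    have h2 : 0 ≤ m r := hm r
    simp [Finset.sum_apply, Pi.single_apply, h2]
  have h1 : m ∈ N := by
    rw [e]
    exact N.sum_mem fun k _ => N.nsmul_mem (h0 k) _
  exact h1 a

/-- elementary matrices as elements of the group -/
def eL {i j : Fin 3} (h : i ≠ j) {m : Mo} (hm : 0 ≤ m) (a : F) : LL F := ⟨el h m a, el_mem h hm a⟩

theorem hp_comm {m n : Mo} (hm : 0 ≤ m) (hn : 0 ≤ n) :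
    HP2 (eL (F := F) n01 hm) (eL n01 hn) :=
  HP2.of_comm fun a b => Subtype.ext (el_comm n01 n01 n10 n10 m n a b)

theorem hp_heis {i j k : Fin 3} (hij : i ≠ j) (hjk : j ≠ k) (hik : i ≠ k) {m n : Mo} (hm : 0 ≤ m)
    (hn : 0 ≤ n) : HP2 (eL (F := F) hij hm) (eL hjk hn) :=
  HP2.of_heis (eL hik (add_nonneg hm hn)) (fun c d => Subtype.ext (el_add hik _ c d))
    (fun a b => Subtype.ext (el_heis hij hjk hik m n a b))
    (fun c b => Subtype.ext (el_comm hik hij hik.symm hij.symm _ _ c b))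
    (fun c b => Subtype.ext (el_comm hik hjk hjk.symm hik.symm _ _ c b))

theorem kaz_LL [Fintype F] (hF : 512 ≤ Fintype.card F) :
    ∃ S : Finset (LL F), Kaz (LL F) S ∧ Subgroup.closure (S : Set (LL F)) = ⊤ := by
  classical
  let u : Fin 6 → F → LL F := fun i a => ⟨ln i a, ln_mem i a⟩
  have gen : Subgroup.closure {g | ∃ i t, g = u i t} = ⊤ := by
    have h1 := Subgroup.closure_preimage_eq_top {g : Equiv.Perm (Vv F) | ∃ i a, g = ln i a}
    refine le_antisymm le_top (le_of_eq_of_le h1.symm (Subgroup.closure_mono ?_))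
    rintro g ⟨i, a, h⟩
    exact ⟨i, a, Subtype.ext h⟩
  have h0 : ∀ k : Fin 3, (0 : Mo) ≤ Pi.single k 1 := fun k => by simp
  have e0 : u 0 = eL n01 le_rfl := rfl
  have e1 : u 1 = eL n01 (h0 0) := rfl
  have e2 : u 2 = eL n01 (h0 1) := rfl
  have e3 : u 3 = eL n01 (h0 2) := rfl
  have e4 : u 4 = eL n12 le_rfl := rfl
  have e5 : u 5 = eL n20 le_rfl := rfl
  have hadd : ∀ i a b, u i (a + b) = u i a * u i b := by
    intro i a b
    obtain ⟨k, l, h, m, -, e⟩ := ln_spec (F := F) i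
    apply Subtype.ext
    show ln i (a + b) = ln i a * ln i b
    rw [e, el_add]
  have pair : ∀ i j, i ≠ j → HP2 (u i) (u j) ∨ HP2 (u j) (u i) := by
    have hcase : ∀ i : Fin 6, (∃ (m : Mo) (hm : 0 ≤ m), u i = eL n01 hm) ∨ i = 4 ∨ i = 5 := by
      intro i
      fin_cases i
      · exact Or.inl ⟨_, _, e0⟩
      · exact Or.inl ⟨_, _, e1⟩
      · exact Or.inl ⟨_, _, e2⟩
      · exact Or.inl ⟨_, _, e3⟩
      · exact Or.inr (Or.inl rfl)
      · exact Or.inr (Or.inr rfl)
    intro i j hij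
    rcases hcase i with ⟨m, hm, ei⟩ | rfl | rfl <;> rcases hcase j with ⟨n, hn, ej⟩ | rfl | rfl
    · rw [ei, ej]; exact Or.inl (hp_comm hm hn)
    · rw [ei, e4]; exact Or.inl (hp_heis n01 n12 n02 hm le_rfl)
    · rw [ei, e5]; exact Or.inr (hp_heis n20 n01 n21 le_rfl hm)
    · rw [ej, e4]; exact Or.inr (hp_heis n01 n12 n02 hn le_rfl)
    · exact absurd rfl hij
    · rw [e4, e5]; exact Or.inl (hp_heis n12 n20 n10 le_rfl le_rfl)
    · rw [ej, e5]; exact Or.inl (hp_heis n20 n01 n21 le_rfl hn)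
    · rw [e4, e5]; exact Or.inr (hp_heis n12 n20 n10 le_rfl le_rfl)
    · exact absurd rfl hij
  obtain ⟨S, ε, hε, hS⟩ := propT_lines2 hF (n := 6) (by norm_num) (by norm_num) u hadd pair gen
  refine ⟨S ∪ Finset.univ.image (fun p : Fin 6 × F => u p.1 p.2), ⟨ε, hε, ?_⟩, ?_⟩
  · intro E _ _ _ π hπ ⟨v, hv, hv'⟩
    exact hS E π hπ ⟨v, hv, fun s hs => hv' s (Finset.mem_union_left _ hs)⟩
  · refine le_antisymm le_top (le_of_eq_of_le gen.symm (Subgroup.closure_mono ?_))
    rintro g ⟨i, a, rfl⟩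
    exact Finset.mem_coe.mpr (Finset.mem_union_right _
      (Finset.mem_image_of_mem _ (Finset.mem_univ (i, a))))

theorem conj_mem {i j : Fin 3} (h : i ≠ j) {g : Equiv.Perm (Vv F)} (hg : g ∈ LL F) :
    sb (tz h) * g * (sb (tz h))⁻¹ ∈ LL F := by
  induction hg using Subgroup.closure_induction with
  | mem x hx =>
    obtain ⟨r, a, rfl⟩ := hx
    obtain ⟨k, l, h', m, hm, e⟩ := ln_spec (F := F) r
    rw [e, sb_el, mul_inv_cancel_right]
    refine el_mem h' ?_ a
    rw [tz_apply]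
    exact add_nonneg hm (by simpa using hm j)
  | one => simpa using (LL F).one_mem
  | mul x y _ _ hx hy => simpa [mul_assoc] using mul_mem hx hy
  | inv x _ hx => simpa [mul_assoc] using inv_mem hx

theorem causal {g : Equiv.Perm (Vv F)} (hg : g ∈ LL F) (v : Vv F)
    (hv : ∀ k n, n ≤ 0 → v k n = 0) : ∀ k n, n ≤ 0 → g v k n = 0 := by
  have key : ∀ {k l : Fin 3} (h : k ≠ l) (m : Mo) (a : F), 0 ≤ m → ∀ v : Vv F,
      (∀ k n, n ≤ 0 → v k n = 0) → ∀ r n, n ≤ 0 → el h m a v r n = 0 := by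
    intro k l h m a hm v hv r n hn
    rw [el_apply, hv r n hn, hv l (n - m) ((sub_le_self n hm).trans hn)]
    simp
  induction hg using Subgroup.closure_induction'' generalizing v with
  | mem x hx =>
    obtain ⟨r, a, rfl⟩ := hx
    obtain ⟨k, l, h', m, hm, e⟩ := ln_spec (F := F) r
    rw [e]
    exact key h' m a hm v hv
  | inv_mem x hx =>
    obtain ⟨r, a, rfl⟩ := hx
    obtain ⟨k, l, h', m, hm, e⟩ := ln_spec (F := F) r
    rw [e, el_inv]
    exact key h' m _ hm v hv
  | one => exact hv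
  | mul x y _ _ hx hy => exact hx _ (hy v hv)

theorem strict {i j : Fin 3} (h : i ≠ j) :
    (sb (tz h))⁻¹ * el n01 (Pi.single j 1) (1 : F) * sb (tz h) ∉ LL F := by
  classical
  have e : tz h (Pi.single j 1 - Pi.single i 1) = Pi.single j 1 := by
    rw [tz_apply]
    simp [Pi.single_eq_of_ne h.symm]
  rw [← e, mul_assoc, ← sb_el, inv_mul_cancel_left]
  intro hm
  have h1 := causal hm (fun _ n => if n = Pi.single i 1 - Pi.single j 1 then 1 else 0) (by
    intro k n hn
    rw [if_neg]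
    rintro rfl
    have h2 := hn i
    simp [Pi.single_eq_of_ne h] at h2) 0 0 le_rfl
  have h2 : (0 : Mo) ≠ Pi.single i 1 - Pi.single j 1 := by
    intro h3
    have h4 := congrFun h3 i
    simp [Pi.single_eq_of_ne h] at h4
  rw [el_apply, if_neg h2] at h1
  simp at h1

/-- ordered pairs of different indices -/
abbrev JJ : Type := {p : Fin 3 × Fin 3 // p.1 ≠ p.2}

/-- generators of the big group -/
def gn : (Fin 6 × F) ⊕ JJ → Equiv.Perm (Vv F) :=
  Sum.elim (fun p => ln p.1 p.2) (fun k => sb (tz k.2))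

variable (F) in
/-- the big group -/
def GG : Subgroup (Equiv.Perm (Vv F)) := Subgroup.closure (Set.range gn)

theorem LL_le : LL F ≤ GG F := by
  refine Subgroup.closure_mono ?_
  rintro g ⟨i, a, rfl⟩
  exact ⟨Sum.inl (i, a), rfl⟩

theorem countable_GG [Fintype F] : Countable (GG F) := by
  have h : (FreeGroup.lift (gn (F := F))).range = GG F := FreeGroup.range_lift_eq_closure
  rw [← h]
  exact (FreeGroup.lift (gn (F := F))).rangeRestrict_surjective.countable

/-- periodic functions -/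
def Per (N : ℕ) (v : Vv F) : Prop := ∀ k n m, v k (n + (N : ℤ) • m) = v k n

theorem finite_per [Fintype F] {N : ℕ} (hN : 0 < N) : Finite {v : Vv F // Per N v} := by
  refine Finite.of_injective
    (fun v : {v : Vv F // Per N v} => fun (k : Fin 3) (n : Fin 3 → Fin N) =>
      v.1 k fun r => ((n r : ℕ) : ℤ)) ?_
  intro v w h
  apply Subtype.ext
  funext k n
  have hN' : (0 : ℤ) < N := by exact_mod_cast hN
  let n' : Fin 3 → Fin N := fun r => ⟨(n r % N).toNat, by
    have h1 := Int.emod_lt_of_pos (n r) hN'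
    have h2 := Int.emod_nonneg (n r) hN'.ne'
    omega⟩
  have e : n = (fun r => ((n' r : ℕ) : ℤ)) + (N : ℤ) • fun r => n r / N := by
    funext r
    have h2 := Int.emod_nonneg (n r) hN'.ne'
    simp only [n', Pi.add_apply, Pi.smul_apply, smul_eq_mul, Int.toNat_of_nonneg h2]
    exact (Int.emod_add_mul_ediv _ _).symm
  rw [e, v.2, w.2]
  exact congrFun (congrFun h k) n'

theorem GG_prop {g : Equiv.Perm (Vv F)} (hg : g ∈ GG F) :
    (∀ N v, Per N v → Per N (g v)) ∧ ∀ k n, ∃ r : ℕ, ∀ v w : Vv F,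
      (∀ l m, (∀ t, |m t| ≤ (r : ℤ)) → v l m = w l m) → g v k n = g w k n := by
  have bnd : ∀ n : Mo, ∃ r : ℕ, ∀ t, |n t| ≤ r := fun n =>
    ⟨∑ t, (n t).natAbs, fun t => by
      rw [← Int.natCast_natAbs]
      exact_mod_cast Finset.single_le_sum (f := fun t => (n t).natAbs)
        (fun _ _ => Nat.zero_le _) (Finset.mem_univ t)⟩
  have k1 : ∀ {k l : Fin 3} (h : k ≠ l) (m : Mo) (a : F),
      (∀ N v, Per N v → Per N (el h m a v)) ∧ ∀ k n, ∃ r : ℕ, ∀ v w : Vv F,
      (∀ l m, (∀ t, |m t| ≤ (r : ℤ)) → v l m = w l m) → el h m a v k n = el h m a w k n := by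
    intro k l h m a
    refine ⟨fun N v hv r n p => ?_, fun r n => ?_⟩
    · rw [el_apply, el_apply, hv, add_sub_right_comm, hv]
    · obtain ⟨r1, h1⟩ := bnd n
      obtain ⟨r2, h2⟩ := bnd (n - m)
      refine ⟨r1 + r2, fun v w hvw => ?_⟩
      rw [el_apply, el_apply, hvw r n fun t => (h1 t).trans (by push_cast; omega),
        hvw l (n - m) fun t => (h2 t).trans (by push_cast; omega)]
  have k2 : ∀ σ : Equiv.Perm Mo, (∀ m n, σ.symm (m + n) = σ.symm m + σ.symm n) →
      (∀ (c : ℤ) m, σ.symm (c • m) = c • σ.symm m) →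
      (∀ N v, Per N v → Per N (sb σ v : Vv F)) ∧ ∀ k n, ∃ r : ℕ, ∀ v w : Vv F,
      (∀ l m, (∀ t, |m t| ≤ (r : ℤ)) → v l m = w l m) → sb σ v k n = sb σ w k n := by
    intro σ h1 h2
    refine ⟨fun N v hv r n p => ?_, fun r n => ?_⟩
    · rw [sb_apply, sb_apply, h1, h2, hv]
    · obtain ⟨r1, h1⟩ := bnd (σ.symm n)
      exact ⟨r1, fun v w hvw => hvw r _ h1⟩
  induction hg using Subgroup.closure_induction'' with
  | mem x hx =>
    obtain ⟨p | p, rfl⟩ := hx
    · obtain ⟨k, l, h', m, -, e⟩ := ln_spec (F := F) p.1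
      show _ ∧ _
      simp only [gn, Sum.elim_inl, e]
      exact k1 h' m _
    · exact k2 _ (tz_symm_add p.2) (tz_symm_smul p.2)
  | inv_mem x hx =>
    obtain ⟨p | p, rfl⟩ := hx
    · obtain ⟨k, l, h', m, -, e⟩ := ln_spec (F := F) p.1
      simp only [gn, Sum.elim_inl, e, el_inv]
      exact k1 h' m _
    · simp only [gn, Sum.elim_inr, ← map_inv]
      exact k2 _ (tz_add p.2) (tz_smul p.2)
  | one =>
    refine ⟨fun N v hv => hv, fun k n => ?_⟩
    obtain ⟨r1, h1⟩ := bnd n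
    exact ⟨r1, fun v w hvw => hvw k n h1⟩
  | mul x y _ _ hx hy =>
    refine ⟨fun N v hv => hx.1 N _ (hy.1 N v hv), fun k n => ?_⟩
    obtain ⟨r, hr⟩ := hx.2 k n
    choose ρ hρ using hy.2
    have hfin : {m : Mo | ∀ t, |m t| ≤ r}.Finite := by
      refine (Set.finite_Icc (fun _ => -(r : ℤ)) (fun _ => (r : ℤ))).subset fun m hm => ?_
      exact ⟨fun t => (abs_le.mp (hm t)).1, fun t => (abs_le.mp (hm t)).2⟩
    obtain ⟨R, hR⟩ := ((Set.finite_univ.prod hfin).image fun p : Fin 3 × Mo => ρ p.1 p.2).bddAbove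
    refine ⟨R, fun v w hvw => hr _ _ fun l m hm => hρ l m v w fun l' m' hm' => hvw l' m' fun t => ?_⟩
    have h1 : ρ l m ≤ R := hR ⟨(l, m), ⟨trivial, hm⟩, rfl⟩
    exact (hm' t).trans (by exact_mod_cast h1)

/-- the action on periodic functions -/
def qN (N : ℕ) : GG F →* Equiv.Perm {v : Vv F // Per N v} where
  toFun g := g.1.subtypePerm fun v => ⟨fun h => by
    simpa using (GG_prop (inv_mem g.2)).1 N _ h, (GG_prop g.2).1 N v⟩
  map_one' := rfl
  map_mul' _ _ := rfl

theorem qN_ne (g : GG F) (hg : g ≠ 1) : ∃ N0 : ℕ, ∀ N, N0 ≤ N → qN N g ≠ 1 := by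
  obtain ⟨v, k, n, hv⟩ : ∃ v k n, g.1 v k n ≠ v k n := by
    by_contra hcon
    push Not at hcon
    apply hg
    ext v k n
    exact hcon v k n
  obtain ⟨r1, h1⟩ := (GG_prop g.2).2 k n
  obtain ⟨r2, h2⟩ := (GG_prop (GG F).one_mem).2 k n
  refine ⟨2 * (r1 + r2) + 1, fun N hN h => ?_⟩
  let w : Vv F := fun l m => v l fun t => (m t).bmod N
  have hw : Per N w := by
    intro l m p
    simp [w]
  have hvw : ∀ l (m : Mo), (∀ t, |m t| ≤ ((r1 + r2 : ℕ) : ℤ)) → w l m = v l m := by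
    intro l m hm
    simp only [w]
    congr 1
    funext t
    have h3 := abs_le.mp (hm t)
    exact Int.bmod_eq_of_le_mul_two (by omega) (by omega)
  have h3 : g.1 w = w :=
    congrArg (fun z : Equiv.Perm {v : Vv F // Per N v} => (z ⟨w, hw⟩).1) h
  apply hv
  rw [← h1 w v fun l m hm => hvw l m fun t => (hm t).trans (by push_cast; omega), h3]
  exact h2 w v fun l m hm => hvw l m fun t => (hm t).trans (by push_cast; omega)

theorem rf_GG [Fintype F] (T : Set (GG F)) (hT : T.Finite) :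
    ∃ (Q : Type) (_ : Group Q) (_ : Finite Q) (q : GG F →* Q), ∀ g ∈ T, g ≠ 1 → q g ≠ 1 := by
  have h1 : ∀ g : GG F, ∃ N0 : ℕ, g ≠ 1 → ∀ N, N0 ≤ N → qN N g ≠ 1 := by
    intro g
    by_cases hg : g = 1
    · exact ⟨0, fun h => absurd hg h⟩
    · obtain ⟨N0, h⟩ := qN_ne g hg
      exact ⟨N0, fun _ => h⟩
  choose f hf using h1
  obtain ⟨R, hR⟩ := (hT.image f).bddAbove
  haveI := finite_per (F := F) (N := R + 1) (by omega)
  exact ⟨_, inferInstance, inferInstance, qN (R + 1), fun g hg h =>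
    hf g h _ ((hR ⟨g, hg, rfl⟩).trans (Nat.le_succ R))⟩

/-- the diagonal embedding -/
def jj : LL F →* GG F × GG F := (Subgroup.inclusion LL_le).prod (Subgroup.inclusion LL_le)

variable (F) in
/-- the set -/
abbrev XX : Type := (GG F × GG F) ⧸ (jj (F := F)).range

variable (F) in
/-- the action -/
noncomputable def act : GG F × GG F →* Equiv.Perm (XX F) := MulAction.toPermHom _ _

theorem act_fix (g x : GG F × GG F) :
    act F g (x : XX F) = (x : XX F) ↔ x⁻¹ * g⁻¹ * x ∈ (jj (F := F)).range := by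
  show ((g * x : GG F × GG F) : XX F) = _ ↔ _
  rw [QuotientGroup.eq, mul_inv_rev]

theorem free_left (g : GG F) (x : XX F) (h : (act F).comp (MonoidHom.inl _ _) g x = x) :
    g = 1 := by
  obtain ⟨x, rfl⟩ := QuotientGroup.mk_surjective x
  obtain ⟨l, hl⟩ := (act_fix _ _).mp h
  have h1 : x.1⁻¹ * g⁻¹ * x.1 = x.2⁻¹ * 1⁻¹ * x.2 :=
    (congrArg Prod.fst hl).symm.trans (congrArg Prod.snd hl)
  have h2 : g = x.1 * (x.1⁻¹ * g⁻¹ * x.1)⁻¹ * x.1⁻¹ := by group
  rw [h2, h1]; group

theorem free_right (g : GG F) (x : XX F) (h : (act F).comp (MonoidHom.inr _ _) g x = x) :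
    g = 1 := by
  obtain ⟨x, rfl⟩ := QuotientGroup.mk_surjective x
  obtain ⟨l, hl⟩ := (act_fix _ _).mp h
  have h1 : x.2⁻¹ * g⁻¹ * x.2 = x.1⁻¹ * 1⁻¹ * x.1 :=
    (congrArg Prod.snd hl).symm.trans (congrArg Prod.fst hl)
  have h2 : g = x.2 * (x.2⁻¹ * g⁻¹ * x.2)⁻¹ * x.2⁻¹ := by group
  rw [h2, h1]; group

/-- the substitutions as elements of the big group -/
def dG (k : JJ) : GG F := ⟨sb (tz k.2), Subgroup.subset_closure ⟨Sum.inr k, rfl⟩⟩

theorem act_not_sofic [Fintype F] (hF : 512 ≤ Fintype.card F) : ¬ IsSofic (act F) := by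
  obtain ⟨S, hK, hS⟩ := kaz_LL hF
  have t1 : ∀ p : Fin 3 × Fin 3, p.1 ≠ p.2 → p.1 ≠ -(p.1 + p.2) := by decide
  have t2 : ∀ p : Fin 3 × Fin 3, p.1 ≠ p.2 → -(p.1 + p.2) ≠ p.2 := by decide
  haveI : Nonempty JJ := ⟨⟨(0, 1), n01⟩⟩
  refine not_sofic (act F) jj hK hS ((1 : GG F × GG F) : XX F) ?_
    (fun k : JJ => (dG k, dG k)) (fun k => ⟨(k.1.1, -(k.1.1 + k.1.2)), t1 k.1 k.2⟩)
    (fun k => ⟨(-(k.1.1 + k.1.2), k.1.2), t2 k.1 k.2⟩) ?_ ?_ ?_ ?_ ?_
  · intro l
    rw [act_fix]
    exact ⟨l⁻¹, by simp⟩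
  · intro k
    have h := (tz_comm k.2 (t1 k.1 k.2) k.2.symm (t1 k.1 k.2).symm).map (sb (F := F))
    exact Prod.ext (Subtype.ext h.eq) (Subtype.ext h.eq)
  · intro k
    have h := (tz_comm k.2 (t2 k.1 k.2) (t2 k.1 k.2).symm k.2.symm).map (sb (F := F))
    exact Prod.ext (Subtype.ext h.eq) (Subtype.ext h.eq)
  · intro k
    have h := congrArg (sb (F := F)) (tz_heis (t1 k.1 k.2) (t2 k.1 k.2) k.2)
    rw [map_mul, map_mul, map_mul] at h
    exact Prod.ext (Subtype.ext h) (Subtype.ext h)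
  · intro k l _
    have h : sb (tz k.2) * l.1 = sb (tz k.2) * l.1 * (sb (tz k.2))⁻¹ * sb (tz k.2) := by group
    exact ⟨⟨_, conj_mem k.2 l.2⟩, Prod.ext (Subtype.ext h) (Subtype.ext h)⟩
  · intro k
    refine ⟨eL n01 (m := Pi.single k.1.2 1) (by simp) 1, fun h => ?_⟩
    have e : act F (dG k, dG k) ((1 : GG F × GG F) : XX F) = ((dG k, dG k) : GG F × GG F) := by
      show (((dG k, dG k) * 1 : GG F × GG F) : XX F) = _
      rw [mul_one]
    rw [e, act_fix, inv_inv] at h
    obtain ⟨l, hl⟩ := h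
    have h1 : l.1 = (sb (tz k.2))⁻¹ * el n01 (Pi.single k.1.2 1) (1 : F) * sb (tz k.2) :=
      congrArg (fun z : GG F × GG F => z.1.1) hl
    exact strict k.2 (h1 ▸ l.2)

/-- The counterexample. -/
theorem main : ∃ (G₁ G₂ X : Type) (_ : Group G₁) (_ : Group G₂) (_ : Countable G₁)
    (_ : Countable G₂) (_ : Countable X) (α₁ : G₁ →* Equiv.Perm X) (α₂ : G₂ →* Equiv.Perm X)
    (hc : ∀ g h, Commute (α₁ g) (α₂ h)),
    IsSofic α₁ ∧ IsSofic α₂ ∧ ¬ IsSofic (MonoidHom.noncommCoprod α₁ α₂ hc) := by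
  let F := GaloisField 2 9
  letI : Fintype F := Fintype.ofFinite _
  have hF : 512 ≤ Fintype.card F := by
    rw [← Nat.card_eq_fintype_card, GaloisField.card 2 9 (by norm_num)]
    norm_num
  haveI := countable_GG (F := F)
  have hc : ∀ g h : GG F, Commute ((act F).comp (MonoidHom.inl _ _) g)
      ((act F).comp (MonoidHom.inr _ _) h) := fun g h =>
    (MonoidHom.commute_inl_inr g h).map (act F)
  refine ⟨GG F, GG F, XX F, inferInstance, inferInstance, inferInstance, inferInstance,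
    QuotientGroup.mk_surjective.countable, _, _, hc, sofic_free _ free_left rf_GG,
    sofic_free _ free_right rf_GG, ?_⟩
  have e : MonoidHom.noncommCoprod _ _ hc = act F := by
    ext1 x
    rw [MonoidHom.noncommCoprod_apply, MonoidHom.comp_apply, MonoidHom.comp_apply, ← map_mul]
    simp
  rw [e]
  exact act_not_sofic hF

end Pool.Agent.H840Z.NS
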