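import Mathlib

/-!
No invariant random height function that increases along a Steinberg type system of elements.
-/

set_option autoImplicit false

namespace Pool.Agent.H840Z.NS

open Filter Set

/-- a finitely additive probability on all subsets -/
structure FAM (Ω : Type) where
  ν : Set Ω → ℝ
  nonneg : ∀ Z, 0 ≤ ν Z
  add : ∀ Z Y, ν Z = ν (Z ∩ Y) + ν (Z \ Y)
  total : ν univ = 1

namespace FAM

variable {Ω : Type} (m : FAM Ω)

theorem mono {Z Y : Set Ω} (h : Z ⊆ Y) : m.ν Z ≤ m.ν Y := by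
  have h1 := m.add Y Z
  rw [inter_eq_self_of_subset_right h] at h1
  have := m.nonneg (Y \ Z)
  linarith

theorem union_le (Z Y : Set Ω) : m.ν (Z ∪ Y) ≤ m.ν Z + m.ν Y := by
  have h1 := m.add (Z ∪ Y) Z
  have h2 : m.ν ((Z ∪ Y) ∩ Z) ≤ m.ν Z := m.mono inter_subset_right
  have h3 : m.ν ((Z ∪ Y) \ Z) ≤ m.ν Y := m.mono (fun x hx => hx.1.resolve_left hx.2)
  linarith

theorem empty : m.ν ∅ = 0 := by
  have h1 := m.add ∅ ∅
  simp only [inter_self, diff_self] at h1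
  linarith

theorem le_one (Z : Set Ω) : m.ν Z ≤ 1 := m.total ▸ m.mono (subset_univ Z)

theorem biUnion_le {κ : Type} (s : Finset κ) (Z : κ → Set Ω) :
    m.ν (⋃ k ∈ s, Z k) ≤ ∑ k ∈ s, m.ν (Z k) := by
  classical
  induction s using Finset.induction_on with
  | empty => simp [m.empty]
  | insert k s hk ih =>
    rw [Finset.set_biUnion_insert, Finset.sum_insert hk]
    exact (m.union_le _ _).trans (by linarith)

/-- the filter of sets of full measure -/
def ae : Filter Ω where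
  sets := {Z | m.ν Zᶜ = 0}
  univ_sets := by simp [m.empty]
  sets_of_superset := by
    intro x y hx hxy
    exact le_antisymm (le_of_le_of_eq (m.mono (compl_subset_compl.mpr hxy)) hx) (m.nonneg _)
  inter_sets := by
    intro x y hx hy
    refine le_antisymm ?_ (m.nonneg _)
    rw [compl_inter]
    have h := m.union_le xᶜ yᶜ
    have hx' : m.ν xᶜ = 0 := hx
    have hy' : m.ν yᶜ = 0 := hy
    linarith

theorem ae_iff {p : Ω → Prop} : (∀ᶠ x in m.ae, p x) ↔ m.ν {x | ¬ p x} = 0 := Iff.rfl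

theorem mono_ae {Z Y : Set Ω} (h : ∀ᶠ x in m.ae, x ∈ Z → x ∈ Y) : m.ν Z ≤ m.ν Y := by
  have h0 := m.ae_iff.mp h
  have h1 : Z ⊆ Y ∪ {x | ¬ (x ∈ Z → x ∈ Y)} := by
    intro x hx
    by_cases hy : x ∈ Y
    · exact Or.inl hy
    · exact Or.inr fun h => hy (h hx)
  have h2 := (m.mono h1).trans (m.union_le _ _)
  linarith

theorem diff_le {Z Y : Set Ω} (h : ∀ᶠ x in m.ae, x ∈ Z → x ∈ Y) :
    m.ν (Y \ Z) ≤ m.ν Y - m.ν Z := by
  have h1 := m.add Y Z
  have h2 : m.ν Z ≤ m.ν (Y ∩ Z) := m.mono_ae (h.mono fun x hx hz => ⟨hx hz, hz⟩)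
  linarith

end FAM

theorem heis_pow {G : Type} [Group G] {a b c : G} (hca : Commute c a) (hcb : Commute c b)
    (h : a * b = b * a * c) (n k : ℕ) : a ^ n * b ^ k = b ^ k * a ^ n * c ^ (n * k) := by
  have h1 : ∀ n : ℕ, a ^ n * b = b * a ^ n * c ^ n := by
    intro n
    induction n with
    | zero => simp
    | succ n ih =>
      calc a ^ (n + 1) * b = a ^ n * (a * b) := by rw [pow_succ, mul_assoc]
        _ = (a ^ n * b) * a * c := by rw [h]; simp only [mul_assoc]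
        _ = b * a ^ n * (c ^ n * a) * c := by rw [ih]; simp only [mul_assoc]
        _ = b * a ^ n * (a * c ^ n) * c := by rw [(hca.pow_left n).eq]
        _ = b * a ^ (n + 1) * c ^ (n + 1) := by rw [pow_succ, pow_succ]; simp only [mul_assoc]
  induction k with
  | zero => simp
  | succ k ih =>
    calc a ^ n * b ^ (k + 1) = (a ^ n * b ^ k) * b := by rw [pow_succ, mul_assoc]
      _ = b ^ k * a ^ n * (c ^ (n * k) * b) := by rw [ih]; simp only [mul_assoc]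
      _ = b ^ k * (a ^ n * b) * c ^ (n * k) := by
        rw [(hcb.pow_left (n * k)).eq]; simp only [mul_assoc]
      _ = b ^ (k + 1) * a ^ n * c ^ (n * (k + 1)) := by
        rw [h1, pow_succ, Nat.mul_succ, add_comm (n * k) n, pow_add]; simp only [mul_assoc]

section

variable {G : Type} [Group G] (m : FAM (G → ℕ))

/-- `c` increases the height almost surely -/
def Up (c : G) : Prop := ∀ x, ∀ᶠ h in m.ae, h x < h (c * x)

variable {m}

theorem Up.pow_le {c : G} (hc : Up m c) (n : ℕ) (x : G) :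
    ∀ᶠ h in m.ae, h x ≤ h (c ^ n * x) := by
  induction n with
  | zero => simp
  | succ n ih =>
    filter_upwards [ih, hc (c ^ n * x)] with h h1 h2
    rw [pow_succ', mul_assoc]
    exact h1.trans h2.le

theorem Up.pow_lt {c : G} (hc : Up m c) {n : ℕ} (hn : 0 < n) (x : G) :
    ∀ᶠ h in m.ae, h x < h (c ^ n * x) := by
  obtain ⟨n, rfl⟩ := Nat.exists_eq_succ_of_ne_zero hn.ne'
  filter_upwards [hc.pow_le n x, hc (c ^ n * x)] with h h1 h2
  rw [Nat.succ_eq_add_one, pow_succ', mul_assoc]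
  exact h1.trans_lt h2

theorem Up.pow_mono {c : G} (hc : Up m c) {n k : ℕ} (hnk : n ≤ k) (x : G) :
    ∀ᶠ h in m.ae, h (c ^ n * x) ≤ h (c ^ k * x) := by
  obtain ⟨j, rfl⟩ := Nat.exists_eq_add_of_le hnk
  filter_upwards [hc.pow_le j (c ^ n * x)] with h h1
  rwa [add_comm, pow_add, mul_assoc]

/-- the comparison event -/
def Bv (c b : G) (N p : ℕ) (g : G) : Set (G → ℕ) := {h | h (c ^ p * g) < h (b ^ N * g)}

theorem Bv_mono {c b : G} (hc : Up m c) (hb : Up m b) {N N' p p' : ℕ} (hN : N ≤ N') (hp : p' ≤ p)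
    (g : G) : ∀ᶠ h in m.ae, h ∈ Bv c b N p g → h ∈ Bv c b N' p' g := by
  filter_upwards [hc.pow_mono hp g, hb.pow_mono hN g] with h h1 h2 h3
  exact h1.trans_lt (lt_of_lt_of_le h3 h2)

theorem Bv_fwd {c b : G} (hc : Up m c) (hcb : Commute c b) (N p j : ℕ) (g : G) :
    ∀ᶠ h in m.ae, h ∈ Bv c b N (p + j) g → h ∈ Bv c b N p (c ^ j * g) := by
  filter_upwards [hc.pow_le j (b ^ N * g)] with h h1 h2
  show h (c ^ p * (c ^ j * g)) < h (b ^ N * (c ^ j * g))
  rw [← mul_assoc, ← pow_add, ← mul_assoc, ← (hcb.pow_pow j N).eq, mul_assoc]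
  exact lt_of_lt_of_le h2 h1

theorem Bv_bwd {c b : G} (hb : Up m b) (hcb : Commute c b) (N p j : ℕ) (g : G) :
    ∀ᶠ h in m.ae, h ∈ Bv c b N p (b ^ j * g) → h ∈ Bv c b (N + j) p g := by
  filter_upwards [hb.pow_le j (c ^ p * g)] with h h1 h2
  have h3 : h (c ^ p * (b ^ j * g)) < h (b ^ N * (b ^ j * g)) := h2
  show h (c ^ p * g) < h (b ^ (N + j) * g)
  rw [← mul_assoc, (hcb.pow_pow p j).eq, mul_assoc, ← mul_assoc (b ^ N), ← pow_add] at h3
  exact lt_of_le_of_lt h1 h3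

/-- invariance of comparison events -/
def Inv (m : FAM (G → ℕ)) : Prop :=
  ∀ x y g : G, m.ν {h | h (x * g) < h (y * g)} = m.ν {h | h x < h y}

theorem Bv_inv (hi : Inv m) (c b : G) (N p : ℕ) (g : G) :
    m.ν (Bv c b N p g) = m.ν (Bv c b N p 1) := by
  unfold Bv
  rw [hi, hi]

theorem shift_up (hi : Inv m) {c b : G} (hc : Up m c) (hb : Up m b) (hcb : Commute c b)
    (N P : ℕ) : m.ν (Bv c b N P (c ^ (2 * P))⁻¹ \ Bv c b (2 * N) P 1) ≤
      m.ν (Bv c b (2 * N) P 1) - m.ν (Bv c b N (3 * P) 1) := by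
  set g := (c ^ (2 * P))⁻¹ with hg
  have h1 := m.diff_le (Bv_mono hc hb (N := N) (N' := 2 * N) (p := 3 * P) (p' := P)
    (by omega) (by omega) g)
  rw [Bv_inv hi, Bv_inv hi c b N] at h1
  refine le_trans (m.mono_ae ?_) h1
  have h2 := Bv_fwd hc hcb N P (2 * P) g
  rw [hg, mul_inv_cancel, ← hg, show P + 2 * P = 3 * P by ring] at h2
  filter_upwards [h2, Bv_mono hc hb (N := N) (N' := 2 * N) (p := P) (p' := P) (by omega) le_rfl g,
    Bv_mono hc hb (N := N) (N' := 2 * N) (p := P) (p' := P) (by omega) le_rfl 1] with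
    h e1 e2 e3 e4
  exact ⟨e2 e4.1, fun e5 => e4.2 (e3 (e1 e5))⟩

theorem shift_down (hi : Inv m) {c b : G} (hc : Up m c) (hb : Up m b) (hcb : Commute c b)
    (N P : ℕ) : m.ν (Bv c b N P ((b ^ N)⁻¹ * (c ^ P)⁻¹) \ Bv c b (2 * N) P 1) ≤
      m.ν (Bv c b (2 * N) P 1) - m.ν (Bv c b N (3 * P) 1) := by
  set g := (b ^ N)⁻¹ * (c ^ P)⁻¹ with hg
  have h0 : ∀ᶠ h in m.ae, h ∈ Bv c b N (3 * P) (b ^ N * g) → h ∈ Bv c b (2 * N) P g := by
    filter_upwards [Bv_bwd hb hcb N (3 * P) N g, Bv_mono hc hb (N := N + N) (N' := 2 * N)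
      (p := 3 * P) (p' := P) (by omega) (by omega) g] with h e1 e2 e3
    exact e2 (e1 e3)
  have h1 := m.diff_le h0
  rw [Bv_inv hi, Bv_inv hi c b N] at h1
  refine le_trans (m.mono_ae ?_) h1
  have h2 := Bv_fwd hc hcb N (2 * P) P (b ^ N * g)
  have e : c ^ P * (b ^ N * g) = 1 := by rw [hg]; group
  rw [e, show 2 * P + P = 3 * P by ring] at h2
  filter_upwards [h2, Bv_mono hc hb (N := N) (N' := 2 * N) (p := P) (p' := P) (by omega) le_rfl g,
    Bv_mono hc hb (N := N) (N' := 2 * N) (p := 2 * P) (p' := P) (by omega) (by omega) 1] with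
    h e1 e2 e3 e4
  exact ⟨e2 e4.1, fun e5 => e4.2 (e3 (e1 e5))⟩

theorem dichotomy {a b c : G} (ha : Up m a) (hb : Up m b) (hc : Up m c) (hca : Commute c a)
    (hcb : Commute c b) (h : a * b = b * a * c) {N P : ℕ} (hN : 0 < N) (hP : 2 * P ≤ N * N) :
    ∀ᶠ h in m.ae, h ∈ Bv c a N P (c ^ (2 * P))⁻¹ ∨ h ∈ Bv c b N P ((b ^ N)⁻¹ * (c ^ P)⁻¹) := by
  obtain ⟨j, hj⟩ := Nat.exists_eq_add_of_le hP
  have e0 := heis_pow hca hcb h N N
  have e1 : c ^ j * (b ^ N * (a ^ N * (b ^ N)⁻¹)) = a ^ N * (c ^ (2 * P))⁻¹ := by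
    have e2 : b ^ N * a ^ N = a ^ N * b ^ N * (c ^ (N * N))⁻¹ := by rw [e0]; group
    have e3 : (c ^ (N * N))⁻¹ * (b ^ N)⁻¹ = (b ^ N)⁻¹ * (c ^ (N * N))⁻¹ :=
      ((hcb.pow_pow (N * N) N).inv_inv).eq
    calc c ^ j * (b ^ N * (a ^ N * (b ^ N)⁻¹)) = c ^ j * ((b ^ N * a ^ N) * (b ^ N)⁻¹) := by
          simp only [mul_assoc]
      _ = c ^ j * (a ^ N * (b ^ N * ((c ^ (N * N))⁻¹ * (b ^ N)⁻¹))) := by
          rw [e2]; simp only [mul_assoc]
      _ = (c ^ j * a ^ N) * (c ^ (N * N))⁻¹ := by rw [e3]; group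
      _ = a ^ N * (c ^ j * (c ^ (N * N))⁻¹) := by rw [(hca.pow_pow j N).eq, mul_assoc]
      _ = a ^ N * (c ^ (2 * P))⁻¹ := by rw [hj, add_comm (2 * P) j, pow_add]; group
  have e4 : c ^ P * (c ^ (2 * P))⁻¹ = (c ^ P)⁻¹ := by rw [two_mul, pow_add]; group
  have e5 : c ^ P * ((b ^ N)⁻¹ * (c ^ P)⁻¹) = (b ^ N)⁻¹ := by
    rw [← mul_assoc, ((hcb.pow_pow P N).inv_right).eq]; group
  have e6 : b ^ N * ((b ^ N)⁻¹ * (c ^ P)⁻¹) = (c ^ P)⁻¹ := by group
  filter_upwards [ha.pow_lt hN (b ^ N)⁻¹, hb.pow_le N (a ^ N * (b ^ N)⁻¹),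
    hc.pow_le j (b ^ N * (a ^ N * (b ^ N)⁻¹))] with h h1 h2 h3
  by_contra hcon
  simp only [Bv, mem_setOf_eq, not_or, not_lt] at hcon
  obtain ⟨h4, h5⟩ := hcon
  rw [e1] at h3
  rw [e4] at h4
  rw [e5, e6] at h5
  omega

/-- The main statement on random height functions. -/
theorem no_height (hi : Inv m) {J : Type} [Fintype J] [Nonempty J] (a : J → G) (u d : J → J)
    (hup : ∀ k, Up m (a k)) (hu : ∀ k, Commute (a k) (a (u k)))
    (hd : ∀ k, Commute (a k) (a (d k)))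
    (hh : ∀ k, a (u k) * a (d k) = a (d k) * a (u k) * a k) : False := by
  classical
  set R : ℕ := 2 * Fintype.card J + 1 with hR
  set N0 : ℕ := 2 * 6 ^ R with hN0
  let β : ℕ → ℝ := fun r => ∑ k : J,
    (m.ν (Bv (a k) (a (u k)) (2 ^ r * N0) (3 ^ (R - r) * (2 ^ R * N0)) 1) +
      m.ν (Bv (a k) (a (d k)) (2 ^ r * N0) (3 ^ (R - r) * (2 ^ R * N0)) 1))
  have hβ0 : 0 ≤ β 0 := Finset.sum_nonneg fun k _ => add_nonneg (m.nonneg _) (m.nonneg _)
  have hβ1 : β R ≤ 2 * Fintype.card J := by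
    calc β R ≤ ∑ _k : J, (2 : ℝ) := Finset.sum_le_sum fun k _ => by
            linarith [m.le_one (Bv (a k) (a (u k)) (2 ^ R * N0) (3 ^ (R - R) * (2 ^ R * N0)) 1),
              m.le_one (Bv (a k) (a (d k)) (2 ^ R * N0) (3 ^ (R - R) * (2 ^ R * N0)) 1)]
      _ = 2 * Fintype.card J := by simp [mul_comm]
  obtain ⟨r, hr, hτ⟩ : ∃ r, r < R ∧ β (r + 1) - β r < 1 := by
    by_contra hcon
    push Not at hcon
    have h1 : ∑ r ∈ Finset.range R, (1 : ℝ) ≤ ∑ r ∈ Finset.range R, (β (r + 1) - β r) :=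
      Finset.sum_le_sum fun r hr => hcon r (Finset.mem_range.mp hr)
    rw [Finset.sum_range_sub] at h1
    simp only [Finset.sum_const, Finset.card_range, nsmul_eq_mul, mul_one] at h1
    have h2 : (R : ℝ) = 2 * Fintype.card J + 1 := by rw [hR]; push_cast; ring
    linarith
  set N : ℕ := 2 ^ r * N0 with hN
  set P : ℕ := 3 ^ (R - (r + 1)) * (2 ^ R * N0) with hP
  have e1 : 2 ^ (r + 1) * N0 = 2 * N := by rw [hN]; ring
  have e2 : 3 ^ (R - r) * (2 ^ R * N0) = 3 * P := by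
    rw [hP, show R - r = R - (r + 1) + 1 by omega]; ring
  have hN0pos : 0 < N0 := by positivity
  have hNpos : 0 < N := by positivity
  have hNP : 2 * N ≤ P := by
    rw [← e1, hP]
    calc 2 ^ (r + 1) * N0 ≤ 2 ^ R * N0 :=
          Nat.mul_le_mul_right _ (Nat.pow_le_pow_right (by norm_num) hr)
      _ ≤ _ := Nat.le_mul_of_pos_left _ (by positivity)
  have hPN : 2 * P ≤ N * N := by
    have h1 : P ≤ 3 ^ R * (2 ^ R * N0) :=
      Nat.mul_le_mul_right _ (Nat.pow_le_pow_right (by norm_num) (Nat.sub_le _ _))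
    have h2 : N0 ≤ N := Nat.le_mul_of_pos_left _ (by positivity)
    have h3 : 2 * (3 ^ R * (2 ^ R * N0)) = N0 * N0 := by
      rw [hN0, show (6 : ℕ) = 2 * 3 by norm_num, mul_pow]; ring
    calc 2 * P ≤ N0 * N0 := by omega
      _ ≤ N * N := Nat.mul_le_mul h2 h2
  let Z : J → Set (G → ℕ) := fun k =>
    (Bv (a k) (a (u k)) N P ((a k) ^ (2 * P))⁻¹ \ Bv (a k) (a (u k)) (2 * N) P 1) ∪
      (Bv (a k) (a (d k)) N P ((a (d k) ^ N)⁻¹ * ((a k) ^ P)⁻¹) \ Bv (a k) (a (d k)) (2 * N) P 1)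
  have hZ : ∑ k : J, m.ν (Z k) ≤ β (r + 1) - β r := by
    simp only [β, ← Finset.sum_sub_distrib]
    refine Finset.sum_le_sum fun k _ => ?_
    rw [e1, e2]
    have h1 := shift_up hi (hup k) (hup (u k)) (hu k) N P
    have h2 := shift_down hi (hup k) (hup (d k)) (hd k) N P
    have h3 := m.union_le
      (Bv (a k) (a (u k)) N P ((a k) ^ (2 * P))⁻¹ \ Bv (a k) (a (u k)) (2 * N) P 1)
      (Bv (a k) (a (d k)) N P ((a (d k) ^ N)⁻¹ * ((a k) ^ P)⁻¹) \ Bv (a k) (a (d k)) (2 * N) P 1)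
    simp only [Z]
    linarith
  have hall : ∀ᶠ h in m.ae, h ∈ (univ : Set (G → ℕ)) → h ∈ ⋃ k ∈ (Finset.univ : Finset J), Z k := by
    have h1 : ∀ᶠ h in m.ae, ∀ k, h ∈ Bv (a k) (a (u k)) N P ((a k) ^ (2 * P))⁻¹ ∨
        h ∈ Bv (a k) (a (d k)) N P ((a (d k) ^ N)⁻¹ * ((a k) ^ P)⁻¹) :=
      eventually_all.mpr fun k =>
        dichotomy (hup (u k)) (hup (d k)) (hup k) (hu k) (hd k) (hh k) hNpos hPN
    have h2 : ∀ᶠ h in m.ae, ∀ k, h (a k ^ (2 * N) * 1) ≤ h (a k ^ P * 1) :=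
      eventually_all.mpr fun k => (hup k).pow_mono hNP 1
    filter_upwards [h1, h2] with h h1 h2 _
    by_contra hcon
    simp only [mem_iUnion, Finset.mem_univ, exists_prop, true_and, not_exists] at hcon
    obtain ⟨k, -, hk⟩ := Finset.exists_max_image Finset.univ (fun k => h (a k ^ P * 1))
      Finset.univ_nonempty
    have h3 := hcon k
    simp only [Z, mem_union, mem_diff, not_or, not_and, not_not] at h3
    rcases h1 k with h4 | h4
    · have h5 : h (a k ^ P * 1) < h (a (u k) ^ (2 * N) * 1) := h3.1 h4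
      have h6 := h2 (u k)
      have h7 := hk (u k) (Finset.mem_univ _)
      omega
    · have h5 : h (a k ^ P * 1) < h (a (d k) ^ (2 * N) * 1) := h3.2 h4
      have h6 := h2 (d k)
      have h7 := hk (d k) (Finset.mem_univ _)
      omega
  have h1 := (m.mono_ae hall).trans (m.biUnion_le _ _)
  rw [m.total] at h1
  linarith

end

end Pool.Agent.H840Z.NS
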