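import Pool.Agent.H840Z.NS.Dec
import Pool.Agent.H840Z.NS.Ord
import Pool.Agent.H499Z.SoficDefs

/-!
A criterion for an action to be non-sofic.
-/

set_option autoImplicit false
set_option linter.unusedSectionVars false

namespace Pool.Agent.H840Z.NS

open Finset Filter
open scoped Topology
open Pool.Agent.H304Z.NH Pool.Agent.H499Z.SoficAct

open Classical in
/-- proportion of points with a property -/
noncomputable def dens {A : Type} [Fintype A] (p : A → Prop) : ℝ :=
  (#(univ.filter p) : ℝ) / Fintype.card A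

section dens

variable {A : Type} [Fintype A]

theorem dens_eq (p : A → Prop) [DecidablePred p] :
    dens p = (#(univ.filter p) : ℝ) / Fintype.card A := by
  unfold dens
  congr

theorem dens_nonneg (p : A → Prop) : 0 ≤ dens p := by
  unfold dens; positivity

theorem dens_mono {p q : A → Prop} (h : ∀ s, p s → q s) : dens p ≤ dens q := by
  classical
  unfold dens
  gcongr with s
  exact h s

theorem dens_true [Nonempty A] : dens (fun _ : A => True) = 1 := by
  have : (Fintype.card A : ℝ) ≠ 0 := by exact_mod_cast Fintype.card_ne_zero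
  rw [dens_eq]
  simp [this]

theorem dens_le_one [Nonempty A] (p : A → Prop) : dens p ≤ 1 :=
  dens_true (A := A) ▸ dens_mono fun _ _ => trivial

theorem dens_add (p q : A → Prop) :
    dens p = dens (fun s => p s ∧ q s) + dens (fun s => p s ∧ ¬ q s) := by
  classical
  rw [dens_eq, dens_eq, dens_eq, ← add_div, ← filter_filter, ← filter_filter]
  congr 1
  exact_mod_cast (card_filter_add_card_filter_not (s := univ.filter p) q).symm

theorem dens_or (p q : A → Prop) : dens (fun s => p s ∨ q s) ≤ dens p + dens q := by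
  rw [dens_add (fun s => p s ∨ q s) p]
  exact add_le_add (dens_mono fun s h => h.2) (dens_mono fun s h => h.1.resolve_left h.2)

theorem dens_perm (σ : Equiv.Perm A) (p : A → Prop) : dens (fun s => p (σ s)) = dens p := by
  classical
  rw [dens_eq, dens_eq, card_filter_perm σ p]

end dens

section null

variable {ι : Type} {A : ι → Type} [∀ i, Fintype (A i)]

/-- a family of properties of vanishing density -/
def Null (U : Filter ι) (p : ∀ i, A i → Prop) : Prop := Tendsto (fun i => dens (p i)) U (𝓝 0)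

variable {U : Filter ι}

theorem Null.of_le {p : ∀ i, A i → Prop} {f : ι → ℝ} (hf : Tendsto f U (𝓝 0))
    (h : ∀ᶠ i in U, dens (p i) ≤ f i) : Null U p :=
  squeeze_zero' (Eventually.of_forall fun _ => dens_nonneg _) h hf

theorem Null.mono' {p q : ∀ i, A i → Prop} (hq : Null U q)
    (h : ∀ᶠ i in U, ∀ s, p i s → q i s) : Null U p :=
  Null.of_le hq (h.mono fun _ hi => dens_mono hi)

theorem Null.mono {p q : ∀ i, A i → Prop} (hq : Null U q) (h : ∀ i s, p i s → q i s) :
    Null U p := hq.mono' (Eventually.of_forall h)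

theorem Null.or {p q : ∀ i, A i → Prop} (hp : Null U p) (hq : Null U q) :
    Null U fun i s => p i s ∨ q i s := by
  have h := Tendsto.add hp hq
  rw [add_zero] at h
  exact Null.of_le h (Eventually.of_forall fun i => dens_or _ _)

theorem Null.perm {p : ∀ i, A i → Prop} (hp : Null U p) (σ : ∀ i, Equiv.Perm (A i)) :
    Null U fun i s => p i (σ i s) := by
  unfold Null
  simp only [dens_perm]
  exact hp

theorem null_false : Null U fun i (_ : A i) => False := by
  unfold Null
  simp only [dens_eq, filter_false, card_empty, Nat.cast_zero, zero_div]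
  exact tendsto_const_nhds

end null

section main

variable {ι : Type} {A : ι → Type} [∀ i, Fintype (A i)] [∀ i, Nonempty (A i)]
  [∀ i, DecidableEq (A i)]

theorem card_pos' (i : ι) : (0 : ℝ) < Fintype.card (A i) := by exact_mod_cast Fintype.card_pos

/-- partitions into expanding pieces with vanishing boundary -/
theorem lim_dec {L : Type} [Group L] {S : Finset L} (hK : Kaz L S) (U : Filter ι)
    (φ : ∀ i, L → Equiv.Perm (A i)) (h1 : ∀ i, φ i 1 = 1)
    (hm : ∀ g h, Null U fun i s => φ i g (φ i h s) ≠ φ i (g * h) s) :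
    ∃ (γ : ℝ) (c : ∀ i, A i → Finset (A i)), 0 < γ ∧ (∀ i, Part univ (c i)) ∧
      (∀ i, Expa (φ i) S γ univ (c i)) ∧ ∀ σ ∈ S, Null U fun i s => φ i σ s ∉ c i s := by
  obtain ⟨γ, hγ, hd⟩ := dec hK
  have hex : ∀ i, ∃ c : A i → Finset (A i), (Part univ c ∧ Expa (φ i) S γ univ c) ∧
      ∀ c' : A i → Finset (A i), (Part univ c' ∧ Expa (φ i) S γ univ c') →
        cost (φ i) S univ c ≤ cost (φ i) S univ c' := by
    intro i
    classical
    obtain ⟨c, hc, hmin⟩ := exists_min_image
      (univ.filter fun c : A i → Finset (A i) => Part univ c ∧ Expa (φ i) S γ univ c)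
      (cost (φ i) S univ) ⟨fun s => {s}, mem_filter.mpr
        ⟨mem_univ _, part_single _, expa_single _ _ _ _⟩⟩
    exact ⟨c, (mem_filter.mp hc).2, fun c' hc' => hmin c' (mem_filter.mpr ⟨mem_univ _, hc'⟩)⟩
  choose c hc hmin using hex
  refine ⟨γ, c, hγ, fun i => (hc i).1, fun i => (hc i).2, fun σ hσ => ?_⟩
  unfold Null
  rw [tendsto_order]
  refine ⟨fun x hx => Eventually.of_forall fun i => hx.trans_le (dens_nonneg _), fun η hη => ?_⟩
  obtain ⟨W, δ, hδ, hW⟩ := hd (η / 2) (by positivity)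
  have h2 : Tendsto (fun i => ∑ g ∈ W, ∑ h ∈ W,
      dens fun s => φ i g (φ i h s) ≠ φ i (g * h) s) U (𝓝 0) := by
    have h3 := tendsto_finsetSum W fun g _ => tendsto_finsetSum W fun h _ => hm g h
    simpa using h3
  filter_upwards [h2.eventually (gt_mem_nhds hδ)] with i hi
  have hc0 := card_pos' (A := A) i
  have h3 : (dfc (φ i) W univ : ℝ) ≤ δ * Fintype.card (A i) := by
    simp only [dens_eq, ← sum_div] at hi
    rw [div_lt_iff₀ hc0] at hi
    unfold dfc
    push_cast
    exact hi.le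
  obtain ⟨c', hp, he, hcost⟩ := hW (A i) (φ i) (h1 i) h3
  have h4 : (cost (φ i) S univ (c i) : ℝ) ≤ cost (φ i) S univ c' := by
    exact_mod_cast hmin i c' ⟨hp, he⟩
  have h5 : #(univ.filter fun s => φ i σ s ∉ c i s) ≤ cost (φ i) S univ (c i) := by
    unfold cost
    refine le_trans (le_of_eq ?_) (single_le_sum (f := fun σ => #(univ.filter fun s =>
      φ i σ s ∈ (univ : Finset (A i)) ∧ φ i σ s ∉ c i s)) (fun _ _ => Nat.zero_le _) hσ)
    simp
  have h6 : (#(univ.filter fun s => φ i σ s ∉ c i s) : ℝ) ≤ cost (φ i) S univ (c i) := by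
    exact_mod_cast h5
  rw [dens_eq, div_lt_iff₀ hc0]
  nlinarith

theorem lim_const {L : Type} [Group L] {S : Finset L} (U : Filter ι)
    (φ : ∀ i, L → Equiv.Perm (A i)) {γ : ℝ} (hγ : 0 < γ) (c : ∀ i, A i → Finset (A i))
    (hp : ∀ i, Part univ (c i)) (he : ∀ i, Expa (φ i) S γ univ (c i))
    (hc : ∀ σ ∈ S, Null U fun i s => φ i σ s ∉ c i s) {B : ι → Type} (g : ∀ i, A i → B i)
    (hg : ∀ σ ∈ S, Null U fun i s => g i (φ i σ s) ≠ g i s) :
    ∃ m : ∀ i, A i → B i, (∀ i s t, c i s = c i t → m i s = m i t) ∧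
      Null U fun i s => g i s ≠ m i s := by
  classical
  choose m hm1 hm2 using fun i => const (φ i) S γ (c i) (hp i) (he i) (g i)
  refine ⟨m, hm1, ?_⟩
  have h2 : Tendsto (fun i => γ⁻¹ * ∑ σ ∈ S,
      dens fun s => φ i σ s ∉ c i s ∨ g i (φ i σ s) ≠ g i s) U (𝓝 0) := by
    have h3 := (tendsto_finsetSum S fun σ hσ => (hc σ hσ).or (hg σ hσ)).const_mul γ⁻¹
    simpa using h3
  refine Null.of_le h2 (Eventually.of_forall fun i => ?_)
  have hc0 := card_pos' (A := A) i
  simp only [dens_eq, ← sum_div]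
  rw [← mul_div_assoc]
  gcongr
  rw [le_inv_mul_iff₀ hγ]
  exact hm2 i

theorem lim_class {L : Type} [Group L] {S : Finset L} (hS : Subgroup.closure (S : Set L) = ⊤)
    (U : Filter ι) (φ : ∀ i, L → Equiv.Perm (A i)) (h1 : ∀ i, φ i 1 = 1)
    (hm : ∀ g h, Null U fun i s => φ i g (φ i h s) ≠ φ i (g * h) s)
    (c : ∀ i, A i → Finset (A i)) (hp : ∀ i, Part univ (c i))
    (hc : ∀ σ ∈ S, Null U fun i s => φ i σ s ∉ c i s) (l : L) :
    Null U fun i s => c i (φ i l s) ≠ c i s := by
  have hl : l ∈ Subgroup.closure (S : Set L) := hS ▸ Subgroup.mem_top l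
  induction hl using Subgroup.closure_induction with
  | mem x hx => exact (hc x hx).mono fun i s h h' => h ((hp i s (mem_univ _)).2.2 _ h')
  | one => exact null_false.mono fun i s h => h (by rw [h1]; rfl)
  | mul x y _ _ hx hy =>
    refine (((hx.perm fun i => φ i y).or hy).or (hm x y)).mono fun i s h => ?_
    by_contra hcon
    simp only [not_or, not_not] at hcon
    exact h (by rw [← hcon.2, hcon.1.1, hcon.1.2])
  | inv x _ hx =>
    refine ((hx.or (hm x⁻¹ x)).perm fun i => (φ i x)⁻¹).mono fun i s h => ?_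
    by_contra hcon
    simp only [not_or, not_not, inv_mul_cancel, h1, Equiv.Perm.coe_one, id_eq,
      Equiv.Perm.coe_inv, Equiv.apply_symm_apply] at hcon
    exact h (by rw [hcon.2, hcon.1])

/-- the limit form of the criterion -/
theorem lim_false {H X L : Type} [Group H] [Group L] (α : H →* Equiv.Perm X) (j : L →* H)
    {S : Finset L} (hK : Kaz L S) (hS : Subgroup.closure (S : Set L) = ⊤) (o : X)
    (ho : ∀ l, α (j l) o = o) {J : Type} [Fintype J] [Nonempty J] (a : J → H) (u d : J → J)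
    (hu : ∀ k, Commute (a k) (a (u k))) (hd : ∀ k, Commute (a k) (a (d k)))
    (hh : ∀ k, a (u k) * a (d k) = a (d k) * a (u k) * a k)
    (hcomp : ∀ k, ∀ l ∈ S, ∃ l', a k * j l = j l' * a k)
    (hstr : ∀ k, ∃ l, α (j l)⁻¹ (α (a k) o) ≠ α (a k) o)
    (U : Ultrafilter ι) (φ : ∀ i, H → Equiv.Perm (A i)) (h1 : ∀ i, φ i 1 = 1)
    (hm : ∀ g h, Null (U : Filter ι) fun i s => φ i g (φ i h s) ≠ φ i (g * h) s)
    {B : ι → Type} (col : ∀ i, A i → X → B i)
    (hc1 : ∀ g x, Null (U : Filter ι) fun i s => col i (φ i g s) x ≠ col i s (α g⁻¹ x))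
    (hc2 : ∀ x y, x ≠ y → Null (U : Filter ι) fun i s => col i s x = col i s y) : False := by
  classical
  have h1' : ∀ i, φ i (j 1) = 1 := fun i => by rw [map_one, h1]
  have hm' : ∀ g h : L, Null (U : Filter ι) fun i s =>
      φ i (j g) (φ i (j h) s) ≠ φ i (j (g * h)) s := fun g h => by
    rw [map_mul]; exact hm _ _
  obtain ⟨γ, c, hγ, hp, he, hc⟩ := lim_dec hK U (fun i l => φ i (j l)) h1' hm'
  have hcl := lim_class hS U (fun i l => φ i (j l)) h1' hm' c hp hc
  obtain ⟨m, hm1, hm2⟩ := lim_const U (fun i l => φ i (j l)) hγ c hp he hc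
    (fun i s => col i s o) (fun σ _ => by
      have := hc1 (j σ) o
      rwa [← map_inv, ho] at this)
  have hup : ∀ k, Null (U : Filter ι) fun i s => ¬ #(c i s) < #(c i (φ i (a k) s)) := by
    intro k
    obtain ⟨l, hl⟩ := hstr k
    obtain ⟨m', hm1', hm2'⟩ := lim_const U (fun i l => φ i (j l)) hγ c hp he hc
      (fun i s => c i (φ i (a k) s)) (fun σ hσ => by
        obtain ⟨l', hl'⟩ := hcomp k σ hσ
        refine (((hm (a k) (j σ)).or (hm (j l') (a k))).or
          ((hcl l').perm fun i => φ i (a k))).mono fun i s h => ?_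
        by_contra hcon
        simp only [not_or, not_not] at hcon
        exact h (by rw [hcon.1.1, hl', ← hcon.1.2, hcon.2]))
    have n1 := hc1 (a k) (α (a k) o)
    have e1 : α (a k)⁻¹ (α (a k) o) = o := by simp
    rw [e1] at n1
    have n2 := (hc1 (j l) (α (a k) o)).perm fun i => φ i (a k)
    have n3 := (hc2 _ _ hl).perm fun i => φ i (a k)
    have n4 := (hcl l).perm fun i => φ i (a k)
    have hB := ((((hm2.or hm2').or n1).or n2).or n3).or n4
    have hB3 := Tendsto.const_mul 3 hB
    rw [mul_zero] at hB3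
    refine Null.of_le hB3 (Eventually.of_forall fun i => ?_)
    have hc0 := card_pos' (A := A) i
    rw [dens_eq, dens_eq, ← mul_div_assoc]
    gcongr
    have h7 := grow (c i) (hp i) (φ i (a k)) (φ i (j l)) (univ.filter fun s =>
      (((((col i s o ≠ m i s ∨ c i (φ i (a k) s) ≠ m' i s) ∨
        col i (φ i (a k) s) (α (a k) o) ≠ col i s o) ∨
        col i (φ i (j l) (φ i (a k) s)) (α (a k) o) ≠
          col i (φ i (a k) s) (α (j l)⁻¹ (α (a k) o))) ∨
        col i (φ i (a k) s) (α (j l)⁻¹ (α (a k) o)) = col i (φ i (a k) s) (α (a k) o)) ∨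
        c i (φ i (j l) (φ i (a k) s)) ≠ c i (φ i (a k) s))) ?_ ?_ ?_
    · exact_mod_cast h7
    · intro s hs t ht hst
      simp only [mem_filter, mem_univ, true_and, not_or, not_not] at hs ht
      rw [hs.1.1.1.1.2, ht.1.1.1.1.2, hm1' i s t hst]
    · intro s hs
      simp only [mem_filter, mem_univ, true_and, not_or, not_not] at hs
      exact hs.2
    · intro s hs t ht hst e
      simp only [mem_filter, mem_univ, true_and, not_or, not_not] at hs ht
      apply hs.1.2
      rw [← hs.1.1.2, e, ht.1.1.1.2, hs.1.1.1.2, hs.1.1.1.1.1, ht.1.1.1.1.1, hm1 i s t hst]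
  let ht : ∀ i, A i → H → ℕ := fun i s x => #(c i (φ i x s))
  have hlim : ∀ Z : Set (H → ℕ), ∃ z : ℝ,
      Tendsto (fun i => dens fun s => ht i s ∈ Z) U (𝓝 z) := by
    intro Z
    obtain ⟨z, -, hz⟩ := (isCompact_Icc (a := (0 : ℝ)) (b := 1)).ultrafilter_le_nhds'
      (U.map fun i => dens fun s => ht i s ∈ Z) (by
        rw [Ultrafilter.mem_map]
        exact univ_mem' fun i => ⟨dens_nonneg _, dens_le_one _⟩)
    exact ⟨z, hz⟩
  choose ν hν using hlim
  let μ : FAM (H → ℕ) :=
    { ν := ν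
      nonneg := fun Z => ge_of_tendsto' (hν Z) fun i => dens_nonneg _
      add := fun Z Y => tendsto_nhds_unique (hν Z)
        (((hν (Z ∩ Y)).add (hν (Z \ Y))).congr fun i =>
          (dens_add (fun s => ht i s ∈ Z) (fun s => ht i s ∈ Y)).symm)
      total := tendsto_nhds_unique (hν Set.univ)
        (tendsto_const_nhds.congr fun i => (dens_true (A := A i)).symm) }
  have hcmp : ∀ (p q : ∀ i, A i → Prop) (z w : ℝ), Tendsto (fun i => dens (p i)) U (𝓝 z) →
      Tendsto (fun i => dens (q i)) U (𝓝 w) → (Null (U : Filter ι) fun i s => p i s ∧ ¬ q i s) →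
      z ≤ w := by
    intro p q z w hz hw hn
    have h2 := hw.add hn
    rw [add_zero] at h2
    refine le_of_tendsto_of_tendsto' hz h2 fun i => ?_
    rw [dens_add (p i) (q i)]
    exact add_le_add (dens_mono fun s h => h.2) le_rfl
  refine no_height (m := μ) ?_ a u d ?_ hu hd hh
  · intro x y g
    have t1 := hν {h | h (x * g) < h (y * g)}
    have t2 : Tendsto (fun i => dens fun s => ht i (φ i g s) ∈ {h : H → ℕ | h x < h y}) U
        (𝓝 (ν {h | h x < h y})) :=
      (hν {h | h x < h y}).congr fun i =>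
        (dens_perm (φ i g) fun s => ht i s ∈ {h : H → ℕ | h x < h y}).symm
    have n := (hm x g).or (hm y g)
    refine le_antisymm (hcmp _ _ _ _ t1 t2 (n.mono fun i s h => ?_))
      (hcmp _ _ _ _ t2 t1 (n.mono fun i s h => ?_))
    · by_contra hcon
      simp only [not_or, not_not] at hcon
      apply h.2
      show #(c i (φ i x (φ i g s))) < #(c i (φ i y (φ i g s)))
      rw [hcon.1, hcon.2]
      exact h.1
    · by_contra hcon
      simp only [not_or, not_not] at hcon
      apply h.2
      show #(c i (φ i (x * g) s)) < #(c i (φ i (y * g) s))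
      rw [← hcon.1, ← hcon.2]
      exact h.1
  · intro k x
    rw [FAM.ae_iff]
    refine tendsto_nhds_unique (hν _) ?_
    refine (((hup k).perm fun i => φ i x).or (hm (a k) x)).mono fun i s h => ?_
    by_contra hcon
    simp only [not_or, not_not] at hcon
    apply h
    show #(c i (φ i x s)) < #(c i (φ i (a k * x) s))
    rw [← hcon.2]
    exact hcon.1

end main

/-- The criterion. -/
theorem not_sofic {H X L : Type} [Group H] [Group L] (α : H →* Equiv.Perm X) (j : L →* H)
    {S : Finset L} (hK : Kaz L S) (hS : Subgroup.closure (S : Set L) = ⊤) (o : X)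
    (ho : ∀ l, α (j l) o = o) {J : Type} [Fintype J] [Nonempty J] (a : J → H) (u d : J → J)
    (hu : ∀ k, Commute (a k) (a (u k))) (hd : ∀ k, Commute (a k) (a (d k)))
    (hh : ∀ k, a (u k) * a (d k) = a (d k) * a (u k) * a k)
    (hcomp : ∀ k, ∀ l ∈ S, ∃ l', a k * j l = j l' * a k)
    (hstr : ∀ k, ∃ l, α (j l)⁻¹ (α (a k) o) ≠ α (a k) o) : ¬ IsSofic α := by
  classical
  intro hs
  have hs' : ∀ i : Finset H × Finset X × ℕ, ∃ (A : Type) (_ : Fintype A) (φ : H → Equiv.Perm A),
      φ 1 = 1 ∧ IsMultiplicative φ i.1 (1 / ((i.2.2 : ℝ) + 1)) ∧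
        IsOrbitApprox α φ i.1 i.2.1 (1 / ((i.2.2 : ℝ) + 1)) := fun i =>
    hs i.1 i.2.1 _ (by positivity)
  choose A inst φ h1 hm B _ T π hT hπ using hs'
  have hε : ∀ n : ℕ, 1 / ((n : ℝ) + 1) ≤ 1 := fun n => by
    rw [div_le_one (by positivity)]
    have : (0 : ℝ) ≤ n := Nat.cast_nonneg n
    linarith
  have hne : ∀ i, Nonempty (A i) := by
    intro i
    have h2 := hT i
    have h3 : (0 : ℝ) ≤ (1 - 1 / ((i.2.2 : ℝ) + 1)) * Fintype.card (A i) :=
      mul_nonneg (by linarith [hε i.2.2]) (Nat.cast_nonneg _)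
    have h4 : 0 < #(T i) := by exact_mod_cast h3.trans_lt h2
    obtain ⟨s, -⟩ := card_pos.mp h4
    exact ⟨s⟩
  let U : Ultrafilter (Finset H × Finset X × ℕ) := Ultrafilter.of atTop
  have hU : (U : Filter (Finset H × Finset X × ℕ)) ≤ atTop := Ultrafilter.of_le _
  have hlim : Tendsto (fun i : Finset H × Finset X × ℕ => 1 / ((i.2.2 : ℝ) + 1)) U (𝓝 0) := by
    refine (tendsto_one_div_add_atTop_nhds_zero_nat (𝕜 := ℝ)).comp (Tendsto.mono_left ?_ hU)
    rw [tendsto_atTop_atTop]
    exact fun n => ⟨(∅, ∅, n), fun i hi => hi.2.2⟩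
  have hF : ∀ g : H, ∀ᶠ i : Finset H × Finset X × ℕ in U, g ∈ i.1 := fun g =>
    hU ((eventually_ge_atTop (({g}, ∅, 0) : Finset H × Finset X × ℕ)).mono fun i hi =>
      hi.1 (mem_singleton_self g))
  have hE : ∀ x : X, ∀ᶠ i : Finset H × Finset X × ℕ in U, x ∈ i.2.1 := fun x =>
    hU ((eventually_ge_atTop ((∅, {x}, 0) : Finset H × Finset X × ℕ)).mono fun i hi =>
      hi.2.1 (mem_singleton_self x))
  have hTn : Null (U : Filter (Finset H × Finset X × ℕ)) fun i (s : A i) => s ∉ T i := by
    refine Null.of_le hlim (Eventually.of_forall fun i => ?_)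
    have hc0 := card_pos' (A := A) i
    have h2 := hT i
    have h3 : (#(univ.filter fun s => s ∈ T i) + #(univ.filter fun s => s ∉ T i) : ℝ) =
        Fintype.card (A i) := by
      exact_mod_cast card_filter_add_card_filter_not (s := univ) (fun s => s ∈ T i)
    rw [filter_mem_eq_inter, univ_inter] at h3
    rw [dens_eq, div_le_iff₀ hc0]
    linarith
  let col : ∀ i, A i → X → Option (B i) := fun i s x =>
    if h : s ∈ T i ∧ x ∈ i.2.1 then some (π i ⟨s, h.1⟩ ⟨x, h.2⟩) else none
  refine lim_false α j hK hS o ho a u d hu hd hh hcomp hstr U φ h1 ?_ col ?_ ?_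
  · intro g h
    refine Null.of_le hlim ?_
    filter_upwards [hF g, hF h] with i hg hh
    refine le_trans (le_of_eq ?_) (hm i g hg h hh).le
    unfold hamming
    rw [dens_eq]
    congr 3
    exact filter_congr fun s _ => ne_comm
  · intro g x
    refine (hTn.or (hTn.perm fun i => φ i g)).mono' ?_
    filter_upwards [hF g, hE x, hE (α g⁻¹ x)] with i hg hx hx' s h
    by_contra hcon
    simp only [not_or, not_not] at hcon
    apply h
    simp only [col]
    rw [dif_pos ⟨hcon.2, hx⟩, dif_pos ⟨hcon.1, hx'⟩]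
    exact congrArg some (hπ i ⟨s, hcon.1⟩ g hg ⟨x, hx⟩ hcon.2 hx')
  · intro x y hxy
    refine hTn.mono' ?_
    filter_upwards [hE x, hE y] with i hx hy s h hs
    simp only [col] at h
    rw [dif_pos ⟨hs, hx⟩, dif_pos ⟨hs, hy⟩] at h
    exact hxy (congrArg Subtype.val ((π i ⟨s, hs⟩).injective (Option.some.inj h)))

end Pool.Agent.H840Z.NS
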